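import Pool.Agent.Helper12.NK.St

/-!
# Project TS (MP_d63854_co): definitions

THEOREM.  Let `G` be a 3-connected excluded minor of the class of apex graphs and `S` a set of three vertices with `G - S` disconnected.
(1) `G - S` has at most four components; if it has at least three then all of them but one are single vertices.
(2) A component `C` such that `G[C ∪ S]` together with a triangle on `S` is planar is a single vertex.
(3) If every vertex of `S` has at least two neighbours in every component of `G - S` then there are exactly two components, and one of them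
has at most seven vertices.

All graphs are finite.  From project AJ: `IsMinor`, `Planar` (no `K₅`, no `K₃,₃` minor), `Apex`, `ExMinor`, `Con G S` (`S` induces a connected
subgraph, in particular `S ≠ ∅`), `Tch G S T` (some edge from `S` to `T`).  From project NK: `rst G U` (the vertices outside `U` become isolated), `Kc k G U`
(`k`-connected on `U`), `add H y N` (new edges from `y` to `N`).
-/

set_option autoImplicit false

namespace Pool.Agent.Helper12.TS

open Pool.Agent.Helper51.AJ (IsMinor Planar Apex ExMinor Con Tch)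
open Pool.Agent.Helper12.NK (rst Kc add)

variable {V : Type}

/-- `K₅` -/
abbrev K5 : SimpleGraph (Fin 5) := ⊤

/-- `K₃,₃` -/
abbrev K33 : SimpleGraph (Fin 3 ⊕ Fin 3) := completeBipartiteGraph (Fin 3) (Fin 3)

/-- `φ` is a model of `Γ` in `H`: `IsMinor Γ H ↔ ∃ φ, Md Γ H φ` (by `Iff.rfl`) -/
def Md {ι : Type} (Γ : SimpleGraph ι) (H : SimpleGraph V) (φ : ι → Set V) : Prop :=
  (∀ w, Con H (φ w)) ∧ (∀ w w', w ≠ w' → Disjoint (φ w) (φ w')) ∧ ∀ w w', Γ.Adj w w' → Tch H (φ w) (φ w')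

/-- the complete graph on `S` -/
def cl (S : Set V) : SimpleGraph V := rst ⊤ S

/-- the star on `S` with the centre `c` -/
def str (c : V) (S : Set V) : SimpleGraph V where
  Adj a b := a ≠ b ∧ ((a = c ∧ b ∈ S) ∨ (b = c ∧ a ∈ S))
  symm := ⟨fun _ _ h => ⟨h.1.symm, h.2.symm⟩⟩
  loopless := ⟨fun _ h => h.1 rfl⟩

/-- `C` is a component of `G - S` -/
def Cmp (G : SimpleGraph V) (S C : Set V) : Prop :=
  Disjoint C S ∧ Con G C ∧ ∀ x ∈ C, ∀ y, y ∉ S → G.Adj x y → y ∈ C

/-- `G[C ∪ (S \ {s})]` with a complete graph on `S \ {s}` is not planar -/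
def Stg (G : SimpleGraph V) (S C : Set V) (s : V) : Prop :=
  ¬ Planar (rst G (C ∪ S \ {s}) ⊔ cl (S \ {s}))

/-- `G[C ∪ S]` with a complete graph on `S` is not planar -/
def Npl (G : SimpleGraph V) (S C : Set V) : Prop := ¬ Planar (rst G (C ∪ S) ⊔ cl S)

/-- the quotient of `G` restricted to `D` by the map `ρ` -/
def quo (G : SimpleGraph V) (D : Set V) (ρ : V → V) : SimpleGraph V where
  Adj a b := a ≠ b ∧ ∃ x ∈ D, ∃ y ∈ D, ρ x = a ∧ ρ y = b ∧ G.Adj x y
  symm := ⟨fun _ _ h => by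
    obtain ⟨h0, x, hx, y, hy, h1, h2, h3⟩ := h
    exact ⟨h0.symm, y, hy, x, hx, h2, h1, h3.symm⟩⟩
  loopless := ⟨fun _ h => h.1 rfl⟩

/-- `a` and `b` are linked in `K` inside `Q`: adjacent, or both attached to a connected subset of `Q` -/
def Lk (K : SimpleGraph V) (Q : Set V) (a b : V) : Prop :=
  K.Adj a b ∨ ∃ P ⊆ Q, Con K P ∧ Tch K {a} P ∧ Tch K {b} P

/-- minimal non-apex: no vertex is an apex; every proper minor, given by a subgraph `G₀`, a vertex set `D` and a contraction `ρ`, has an apex -/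
def Mnm (G : SimpleGraph V) : Prop :=
  (∀ v, ¬ Planar (rst G {v}ᶜ)) ∧
  ∀ (G₀ : SimpleGraph V) (D : Set V) (ρ : V → V), G₀ ≤ G → (∀ x ∈ D, Con G {z | z ∈ D ∧ ρ z = ρ x}) →
    (∃ x y, G.Adj x y ∧ ¬ (G₀.Adj x y ∧ x ∈ D ∧ y ∈ D ∧ ρ x ≠ ρ y)) → ∃ v, Planar (rst (quo G₀ D ρ) {v}ᶜ)

/-! ### contractions of a component `A` into vertices of `A` and of `T` -/

/-- `ρ` is a retraction which moves only elements of `A`, into `A ∪ T`, with connected fibres -/
structure Rtr (G : SimpleGraph V) (A T : Set V) (ρ : V → V) : Prop where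
  off : ∀ x, x ∉ A → ρ x = x
  inn : ∀ x, x ∈ A → ρ x ∈ A ∪ T
  idp : ∀ x, ρ (ρ x) = ρ x
  fib : ∀ x, Con G {z | ρ z = ρ x}

/-- the vertices of `A` which remain -/
def Rr (A : Set V) (ρ : V → V) : Set V := {r | r ∈ A ∧ ρ r = r}

/-- the vertices of `A` which are not contracted into `T` -/
def Zz (A : Set V) (ρ : V → V) : Set V := {z | z ∈ A ∧ ρ z ∈ A}

/-- links from all vertices of `Zz A ρ` to the parts of all elements of `T`, and to one of them avoiding any given part -/
def Uu (G : SimpleGraph V) (A T : Set V) (ρ : V → V) : Prop :=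
  (∀ x ∈ Zz A ρ, ∀ t ∈ T, ∃ Z ⊆ Zz A ρ, Con G Z ∧ x ∈ Z ∧ Tch G Z {z | ρ z = t}) ∧
  (∀ r, ∀ x ∈ Zz A ρ, ρ x ≠ r → ∃ Z ⊆ Zz A ρ \ {z | ρ z = r}, Con G Z ∧ x ∈ Z ∧ Tch G Z {z | ρ z ∈ T})

/-- a model `φ` of a 3-connected nonplanar graph `Γ` with at most six vertices in `rst G (A ∪ T) ⊔ D`, covering `A ∪ T`, and a retraction `ρ` which contracts
every `φ i` without elements of `T` to a vertex, and all other `φ i` into elements of `T` -/
structure Mdl {ι : Type} (G D : SimpleGraph V) (A T : Set V) (Γ : SimpleGraph ι) (φ : ι → Set V) (ρ : V → V) : Prop where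
  kc : Kc 3 Γ Set.univ
  np : ¬ Planar Γ
  card : Nat.card ι ≤ 6
  md : Md Γ (rst G (A ∪ T) ⊔ D) φ
  cov : (⋃ i, φ i) = A ∪ T
  rtr : Rtr G A T ρ
  inv : ∀ i, ∀ x ∈ φ i, ρ x ∈ φ i
  root : ∀ i, (φ i ∩ T).Nonempty → ∀ x ∈ φ i, ρ x ∈ T
  sgl : ∀ i, ¬ (φ i ∩ T).Nonempty → ∀ x ∈ φ i, ∀ y ∈ φ i, ρ x = ρ y

/-- the edges `D` between elements of `S` are available in `W`: in every graph containing `G[W ∪ S]`, for the rest `X`, planarity is kept when `W` is replaced
by the edges of `D` -/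
def Avl (G : SimpleGraph V) (W S : Set V) (D : SimpleGraph V) : Prop :=
  ∀ (H : SimpleGraph V) (X : Set V), Disjoint X W → rst G (W ∪ S) ≤ H → Planar H → Planar (rst H (X ∪ S) ⊔ D)

end Pool.Agent.Helper12.TS
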