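import Pool.Agent.Helper12.TS.StB
import Pool.Agent.Helper86.NK.M_PTR
import Pool.Agent.Helper36.NK.M_KCA

/-!
# Project TS (MP_d63854_co): final statement
-/

set_option autoImplicit false

namespace Pool.Agent.Helper12.TS

open Pool.Agent.Helper51.AJ (IsMinor Planar Apex ExMinor Con Tch)
open Pool.Agent.Helper12.NK (rst Kc add)

/-- the final statement, from the modules -/
theorem fin (hEXQ : StEXQ) (hPTN : StPTN) (hPLC : StPLC) (hTRI : StTRI) (hFIN : StFIN)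
    (V : Type) [Finite V] (G : SimpleGraph V) (hG : ExMinor G)
    (h3 : ∀ X : Set V, X.ncard ≤ 2 → (G.induce Xᶜ).Connected)
    (S : Set V) (hS : S.ncard = 3) (hD : ¬ (G.induce Sᶜ).Connected) :
    {C | Cmp G S C}.ncard ≤ 4 ∧
    (3 ≤ {C | Cmp G S C}.ncard → ∃ C₀, ∀ C, Cmp G S C → C ≠ C₀ → C.ncard = 1) ∧
    (∀ C, Cmp G S C → Planar (rst G (C ∪ S) ⊔ cl S) → C.ncard = 1) ∧
    ((∀ C, Cmp G S C → ∀ s ∈ S, 2 ≤ {x | x ∈ C ∧ G.Adj s x}.ncard) →
      {C | Cmp G S C}.ncard = 2 ∧ ∃ C, Cmp G S C ∧ C.ncard ≤ 7) := by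
  have hM : Mnm G := hEXQ V G hG
  have hnp : ¬ Planar G := fun h => hG.1 (Or.inl h)
  have hcard : 5 ≤ Nat.card V := hPTN.2.2.2.2.2.2.2.2.1 V G hnp
  have hK : Kc 3 G Set.univ := by
    refine ⟨by rw [Set.ncard_univ]; omega, fun X hX => ?_⟩
    rw [← Set.compl_eq_univ_sdiff]
    exact h3 X (by omega)
  refine ⟨?_, ?_, ?_, ?_⟩
  · by_cases h : 3 ≤ {C | Cmp G S C}.ncard
    · exact (hTRI V G S hM hK hS h).1
    · omega
  · intro h
    obtain ⟨C₀, _, h0⟩ := (hTRI V G S hM hK hS h).2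
    exact ⟨C₀, h0⟩
  · intro C hC hp
    exact hPLC V G S C hM hK hS hC (fun h => h hp)
  · intro h
    exact hFIN V G S hM hK hS hD h

end Pool.Agent.Helper12.TS
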