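import Pool.Agent.Helper12.TS.Defs

/-!
# Project TS (MP_d63854_co): statements of the modules (first part), with proofs

A module may use every other statement `St...` of `TS/St.lean`, `TS/StB.lean` as a hypothesis.  Proved and importable: `NK.StPTR` (planarity passes to
minors: `Pool.Agent.Helper86.NK.hPTR`), `NK.StPAR` (`Pool.Agent.Helper45.NK.hPAR`), `NK.StKCA` (`Pool.Agent.Helper36.NK.hKCA : StPTR → StKCA`;
(6) is monotonicity of `Planar`, (7) `Planar (G.induce U) ↔ Planar (rst G U)`), `NK.StKCB`, `NK.StMNR`, `AJ.StCon` (`Pool.Agent.Helper41.AJ.hCON`; (1): in a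
connected set `S` every nonempty `T ⊂ S` touches `S \ T`), `Helper51/AJ/Basic.lean`: `con_union`, `con_singleton`, `tch_mono`, `tch_symm`, ...
`Cmp G Wᶜ K` says: `K` is a component of `G[W]`.
-/

set_option autoImplicit false

namespace Pool.Agent.Helper12.TS

open Pool.Agent.Helper51.AJ (IsMinor Planar Apex ExMinor Con Tch)
open Pool.Agent.Helper12.NK (rst Kc add)

/-! ### generalities -/

/-- EXQ.  Proof.  First part: `G` is not apex, `NK.StKCA (7)`.  Second part: let `W = {a // ∃ x ∈ D, ρ x = a}` and `H` the graph `quo G₀ D ρ` on `W` (`SimpleGraph.induce` or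
comap of `Subtype.val`).  It is a minor of `G`: branch sets `{z | z ∈ D ∧ ρ z = a}`.  It is not isomorphic to `G`: choose for every edge `a b` of `H` an edge `x y` of `G` with
`x, y ∈ D`, `ρ x = a`, `ρ y = b`, `G₀.Adj x y`; this is an injective map from the edges of `H` to the edges of `G` (`{ρ x, ρ y} = {a, b}`), and it misses the edge `x y` of the hypothesis
(an edge in the image is, up to order, such an edge; `G₀.Adj`, `x ∈ D`, `y ∈ D`, `ρ x ≠ ρ y` are symmetric), so `H` has fewer edges.  So `H` is apex.  If `H` is planar take any `v` (e.g. `x`), otherwise `v = w.1`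
where `H.induce {w}ᶜ` is planar; `NK.StPTR` (or `IsMinor` directly) transfers planarity: the vertices outside `W` are isolated in `quo G₀ D ρ`. -/
def StEXQ : Prop := ∀ (V : Type) [Finite V] (G : SimpleGraph V), ExMinor G → Mnm G

/-- QUO.  Facts on quotients.  Proofs.  (1) `ρ '' T`: a walk in `G.induce T` is mapped to a walk with repetitions: for an edge `x y` either `ρ x = ρ y` or `ρ x`, `ρ y` are adjacent in the quotient.
(2) An edge `x y`, `x ∈ T`, `y ∈ T'`, has `ρ x ≠ ρ y` by disjointness.  (3), (4) clear ((4) is (1) with `ρ '' X = X`).  (5) Some `x ∈ A` has `ρ x ≠ x` (otherwise `Rr A ρ = A`); the fibre of `ρ x` contains `x` and `ρ x`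
(`idp`) and is connected, so (AJ.StCon (1) with `T = {x}`) `x` has a neighbour in it.  (6), (7) By (1) and (2) with `P = ρ '' Z`: for `z ∈ Zz A ρ`: `ρ z ∈ A`, `ρ (ρ z) = ρ z`, so `ρ z ∈ Rr A ρ`; `ρ a = a`; `Tch G {a} {z | ρ z = t}` gives `Adj a t` in the quotient since
`a ≠ t`.  (8) As (6), for links between the parts of two elements of `T`, and (9) for one connected set attached to all parts. -/
def StQUO : Prop := ∀ (V : Type) [Finite V] (G : SimpleGraph V) (D : Set V) (ρ : V → V),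
  (∀ T ⊆ D, Con G T → Con (quo G D ρ) (ρ '' T)) ∧
  (∀ T ⊆ D, ∀ T' ⊆ D, Disjoint (ρ '' T) (ρ '' T') → Tch G T T' → Tch (quo G D ρ) (ρ '' T) (ρ '' T')) ∧
  (∀ X ⊆ D, (∀ x ∈ X, ρ x = x) → rst G X ≤ quo G D ρ) ∧
  (∀ X ⊆ D, (∀ x ∈ X, ρ x = x) → Con G X → Con (quo G D ρ) X) ∧
  (∀ A T, Rtr G A T ρ → (Rr A ρ).ncard < A.ncard → ∃ x y, G.Adj x y ∧ ρ x = ρ y) ∧
  (∀ A T a t, Rtr G A T ρ → a ∉ A → a ∉ T → t ∈ T → Disjoint A T →
    (Tch G {a} {z | ρ z = t} ∨ ∃ Z ⊆ Zz A ρ, Con G Z ∧ Tch G {a} Z ∧ Tch G Z {z | ρ z = t}) →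
    Lk (quo G Set.univ ρ) (Rr A ρ) a t) ∧
  (∀ A T a t r, Rtr G A T ρ → a ∉ A → a ∉ T → t ∈ T → Disjoint A T →
    (Tch G {a} {z | ρ z = t} ∨ ∃ Z ⊆ Zz A ρ \ {z | ρ z = r}, Con G Z ∧ Tch G {a} Z ∧ Tch G Z {z | ρ z = t}) →
    Lk (quo G Set.univ ρ) (Rr A ρ \ {r}) a t) ∧
  (∀ A T a b r, Rtr G A T ρ → a ∈ T → b ∈ T → a ≠ b → Disjoint A T →
    (∃ Z ⊆ Zz A ρ \ {z | ρ z = r}, Con G Z ∧ Tch G {z | ρ z = a} Z ∧ Tch G {z | ρ z = b} Z) →
    Lk (quo G Set.univ ρ) (Rr A ρ \ {r}) a b) ∧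
  (∀ A T, Rtr G A T ρ → Disjoint A T →
    (∃ Z ⊆ Zz A ρ, Con G Z ∧ ∀ t ∈ T, Tch G {z | ρ z = t} Z) →
    ∃ P ⊆ Rr A ρ, Con (quo G Set.univ ρ) P ∧ ∀ t ∈ T, Tch (quo G Set.univ ρ) {t} P)

/-- CMP.  Components.  Proofs.  (1) The set of the vertices reachable from `x` in `G.induce Sᶜ`.  (2) follows from (3).  (3) Otherwise there is an edge of `G` from `T ∩ C` to `T \ C` (AJ.StCon (1) for `T ∩ C ⊂ T`), its end is not in `S`, contradiction (`C` closed).
(4) `Set.univ \ (S \ {s})` is connected (`S \ {s}` has two elements), contains `C` and also `s ∉ C`; AJ.StCon (1): an edge from `C` to a vertex outside `C` and not in `S \ {s}`; `C` is closed, so this vertex is `s`.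
(5) `Set.univ \ {v, s}` is connected, contains `K` if `s ∉ K`, and there is a vertex of `S` in it, not in `K` (`|S| = 3`); AJ.StCon (1): an edge from `K` to `z ∉ K`, `z ≠ v, s`; `K` is closed, so `z ∈ insert v S`, `z ∈ S`.  (If `s ∈ K`, so `s ∉ S`, use `{v}` instead of `{v, s}`.)
(6) `Set.univ \ {a, b}` is connected, contains `Y` and an element of `S \ {a, b}`, which is not in `Y`; AJ.StCon (1).
(7) `W` connected, `v ∈ W`, `K` a component of `W \ {v}`.  Every component `K'` of `W \ {v}` touches `v`: `K' ≠ W`, so there is an edge from `K'` to `W \ K'`, it can only end in `v`.  `W \ K` is the union of `{v}` and the sets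
`{v} ∪ K'` for the other components `K'`, so it is connected. -/
def StCMP : Prop := ∀ (V : Type) [Finite V] (G : SimpleGraph V) (S : Set V),
  (∀ x, x ∉ S → ∃ C, Cmp G S C ∧ x ∈ C) ∧
  (∀ C C', Cmp G S C → Cmp G S C' → C ≠ C' → Disjoint C C') ∧
  (∀ C T, Cmp G S C → Con G T → Disjoint T S → (T ∩ C).Nonempty → T ⊆ C) ∧
  (Kc 3 G Set.univ → S.ncard = 3 → ∀ C, Cmp G S C → ∀ s ∈ S, Tch G {s} C) ∧
  (Kc 3 G Set.univ → S.ncard = 3 → ∀ v, v ∉ S → ∀ K, Cmp G (insert v S) K → ∀ s, ∃ t ∈ S, t ≠ s ∧ Tch G {t} K) ∧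
  (Kc 3 G Set.univ → S.ncard = 3 → ∀ Y : Set V, Disjoint Y S → Y.Nonempty → ∀ a b, a ∉ Y → b ∉ Y →
    ∃ x ∈ Y, ∃ z, z ∉ Y ∧ z ≠ a ∧ z ≠ b ∧ G.Adj x z) ∧
  (∀ (W K : Set V) (v : V), Con G W → v ∈ W → Cmp G (W \ {v})ᶜ K → Tch G {v} K ∧ Con G (W \ K))

/-- PTN.  The two graphs `K₅`, `K₃,₃`.  Proofs.  (1), (2) `K₅` and `K₃,₃` have at least five vertices; deleting at most two of them leaves a connected graph (for `K₃,₃` every class keeps an element).  (3), (4) The identity is a model.  (5) Definition.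
(6) A model is a minor; planarity is inherited (AJ.StJnm (3), NK.StPTR).  (7) Along walks in `Γ.induce K`: two adjacent `k, k'` have touching `φ k`, `φ k'` (AJ.`con_union`; or `NK.StPTR`-like arguments; induction on walks).  (8) = (5) with (1)-(4).
(9) A model of `K₅` or `K₃,₃` in `Γ` has at least five disjoint nonempty sets.  (10) `NK.StKCA (3)` (three neighbours). -/
def StPTN : Prop :=
  Kc 3 K5 Set.univ ∧ Kc 3 K33 Set.univ ∧ ¬ Planar K5 ∧ ¬ Planar K33 ∧
  (∀ (V : Type) (H : SimpleGraph V), ¬ Planar H → (∃ φ, Md K5 H φ) ∨ ∃ φ, Md K33 H φ) ∧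
  (∀ (ι V : Type) (Γ : SimpleGraph ι) (H : SimpleGraph V) (φ : ι → Set V), Md Γ H φ → ¬ Planar Γ → ¬ Planar H) ∧
  (∀ (ι V : Type) (Γ : SimpleGraph ι) (H : SimpleGraph V) (φ : ι → Set V) (K : Set ι), Md Γ H φ → Con Γ K → Con H (⋃ k ∈ K, φ k)) ∧
  (∀ (V : Type) (H : SimpleGraph V), ¬ Planar H → ∃ (ι : Type) (_ : Finite ι) (Γ : SimpleGraph ι) (φ : ι → Set V),
    Nat.card ι ≤ 6 ∧ Kc 3 Γ Set.univ ∧ ¬ Planar Γ ∧ Md Γ H φ) ∧
  (∀ (ι : Type) [Finite ι] (Γ : SimpleGraph ι), ¬ Planar Γ → 5 ≤ Nat.card ι) ∧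
  (∀ (ι : Type) [Finite ι] (Γ : SimpleGraph ι), Kc 3 Γ Set.univ → ∀ (i : ι) (I : Set ι), I.ncard ≤ 2 → ∃ j, j ∉ I ∧ Γ.Adj i j)

/-! ### sums of graphs along two or three vertices -/

/-- RSM.  Restriction of a model.  Proof.  Let `b = φ w`, `b' = b ∩ (C ∪ S)`, `H' = rst H (C ∪ S) ⊔ cl S`.  If `b ⊆ C` then `b' = b` and `b` is connected in `H'`.  Otherwise let `s₀ ∈ b ∩ S`.  Every `x ∈ b'` is connected to `s₀` inside `b'` in `H'`: clear if `x ∈ S` (edge `x s₀` of
`cl S`).  If `x ∈ C` let `X` be the set of all elements of `b'` reachable from `x` inside `b'` in `H'`, and suppose `X ∩ S = ∅`, so `X ⊆ C`; `X ≠ b`, so there is an edge `x' y` of `H` with `x' ∈ X`, `y ∈ b \ X` (AJ.StCon (1)); `C` is closed, so `y ∈ C ∪ S`, `y ∈ b'`, and `y ∈ X`, contradiction.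
Disjointness is clear.  Touching: let `x y` be an edge of `H`, `x ∈ φ w`, `y ∈ φ w'`.  If `x, y ∈ C ∪ S` it is an edge of `H'`.  Otherwise say `x ∉ C ∪ S`; then `y ∉ C` (closed).  So `φ w`, `φ w'` are not contained in `C`, both contain elements of `S`, which are different and adjacent in `cl S`. -/
def StRSM : Prop := ∀ (V ι : Type) [Finite V] (Γ : SimpleGraph ι) (H : SimpleGraph V) (φ : ι → Set V) (C S : Set V), Md Γ H φ →
  Disjoint C S → (∀ x ∈ C, ∀ y, y ∉ S → H.Adj x y → y ∈ C) → (∀ w, φ w ⊆ C ∨ (φ w ∩ S).Nonempty) →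
  Md Γ (rst H (C ∪ S) ⊔ cl S) (fun w => φ w ∩ (C ∪ S))

/-- TWO.  2-sums.  Proof.  StPTN (8): `ι`, `Γ`, `φ`.  `W = {w | φ w ∩ {p, q} ≠ ∅}` has at most two elements, so `Con Γ (Set.univ \ W)` (Kc 3), and `U = ⋃ w ∉ W, φ w` is connected in `H` (StPTN (7)), `p, q ∉ U`.  Take `w ∉ W`; it has a neighbour in `Γ` (StPTN (10)), so some
`x ∈ φ w` has a neighbour in `H`; `x ≠ p, q`; so there is `C ∈ 𝒞` with `x ∈ C`; `U ⊆ C`: otherwise there is an edge of `H` from `U ∩ C` to `U \ C` (AJ.StCon (1)), contradiction (`C` closed).  StRSM with `S = {p, q}`, StPTN (6). -/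
def StTWO : Prop := ∀ (V : Type) [Finite V] (H : SimpleGraph V) (p q : V) (𝒞 : Set (Set V)), p ≠ q →
  (∀ C ∈ 𝒞, p ∉ C ∧ q ∉ C ∧ ∀ x ∈ C, ∀ y, y ≠ p → y ≠ q → H.Adj x y → y ∈ C) →
  (∀ x y, x ≠ p → x ≠ q → H.Adj x y → ∃ C ∈ 𝒞, x ∈ C) → ¬ Planar H →
  ∃ C ∈ 𝒞, ¬ Planar (rst H (C ∪ {p, q}) ⊔ cl {p, q})

/-- LNK.  A link between `a` and `b` outside `X ∪ {a, b}` replaces the edge `a b`.  Proof.  If `a = b` or `K.Adj a b` the graph is a subgraph of `K` (`NK.StKCA (6)`).  Otherwise let `P ⊆ Q` be connected, attached to `a` and `b`.  `NK.StPTR` with `f a = {a} ∪ P`, `f x = {x}` for `x ≠ a`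
(all vertices with a neighbour in the first graph are in `X ∪ {a, b}`, so not in `P`); the edge `a b` is replaced by the edge from `P` to `b`. -/
def StLNK : Prop := ∀ (V : Type) [Finite V] (G K : SimpleGraph V) (X Q : Set V) (a b : V), rst G (X ∪ {a, b}) ≤ K →
  Disjoint Q (X ∪ {a, b}) → Lk K Q a b → Planar K → Planar (rst G (X ∪ {a, b}) ⊔ cl {a, b})

/-- YMD.  A connected set `P` attached to the three elements of `S` replaces `C` and all edges inside `S`.
Proof.  Let `φ` be the model, `Γ` the graph, `B w = φ w \ C`.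
(0) `P ∩ B w = ∅`: an element `x` of it has no neighbour in `H`; but if `φ w = {x}` then `φ w` touches another `φ w'`, and otherwise `x` has a neighbour in `φ w` (AJ.StCon (1)).
(1) If `φ w ∩ S = ∅` then `φ w ∩ C = ∅`: otherwise `φ w ⊆ C` (connected, `C` closed), which is excluded.
(2) Let `x ∈ B w`, `X` the set of all vertices reachable from `x` inside `B w` in the graph `K`, and suppose `X ∩ S = ∅`.  Then `X = φ w` (so `B w = φ w` is connected in `K` and `φ w ∩ S = ∅`): otherwise there is an edge `x' y` of `H`, `x' ∈ X`, `y ∈ φ w \ X`; `y ∈ C` is impossible (then `x' ∈ C ∪ S`);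
so `y ∈ B w`, `K.Adj x' y`, `y ∈ X`, contradiction.  Consequences: if `φ w` has at most one element of `S` then `B w` is connected in `K`; if `φ w ∩ S ≠ ∅` then `B w ∪ P` is connected in `K` (every element is connected to an element of `S`, and these are attached to `P`).
(3) If `Γ.Adj w u` and `φ w`, `φ u` do not both meet `S` then `Tch K (B w) (B u)`: let `x y` be an edge of `H`, `x ∈ φ w`, `y ∈ φ u`.  `x ∈ C` would give `φ w ∩ S ≠ ∅` (by (1)) and `y ∈ C ∪ S`, so `φ u ∩ S ≠ ∅`; so `x ∉ C`, and `y ∉ C` in the same way; not both are in `S`; so `K.Adj x y`.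
If `φ u ∩ S ≠ ∅` then `Tch K P (B u)`.
(4) Let `I = {w | φ w ∩ S ≠ ∅}`, at most three elements.  If `I = ∅` the sets `B w` are a model of `Γ` in `K`.  If there is `w₀ ∈ I` such that all other `w ∈ I` have only one element of `S` and are pairwise not adjacent in `Γ`, then `B w₀ ∪ P` and the `B w`, `w ≠ w₀`, are a model of `Γ` in `K`.  This is so if `|I| = 1`, if `|I| = 2`
(take the `w₀` with two elements of `S` if there is one), and if `|I| = 3` and `Γ = K₃,₃` (every `φ w`, `w ∈ I`, has one element of `S`; `K₃,₃` has no triangle, so two elements of `I` are not adjacent; `w₀` is the third one).  Finally let `|I| = 3`, `Γ = K₅`: the three sets `B w`, `w ∈ I`, and the three sets `P`, `B u`, `u ∉ I`,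
are a model of `K₃,₃` in `K`. -/
def StYMD : Prop := ∀ (V : Type) [Finite V] (H K : SimpleGraph V) (C S P : Set V), S.ncard = 3 → Disjoint C S →
  (∀ x ∈ C, ∀ y, y ∉ S → H.Adj x y → y ∈ C) →
  (∀ x y, H.Adj x y → x ∉ C → y ∉ C → ¬ (x ∈ S ∧ y ∈ S) → K.Adj x y) →
  Con K P → Disjoint P S → (∀ x ∈ P, x ∈ C ∨ ∀ y, ¬ H.Adj x y) → (∀ s ∈ S, Tch K {s} P) →
  ((∃ φ, Md K5 H φ ∧ ∀ w, ¬ φ w ⊆ C) ∨ (∃ φ, Md K33 H φ ∧ ∀ w, ¬ φ w ⊆ C)) → ¬ Planar K

/-- LNY.  (Delta-Y)  Proof.  StYMD with `H = rst G (X ∪ S) ⊔ cl S`, `C = ∅`: an edge of `H` with not both ends in `S` is an edge of `rst G (X ∪ S) ≤ K`; the elements of `P` have no neighbour in `H`.  If `H` is not planar then it has a model of `K₅` or `K₃,₃` (StPTN (5)), and no `φ w` is empty. -/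
def StLNY : Prop := ∀ (V : Type) [Finite V] (G K : SimpleGraph V) (X S P : Set V), S.ncard = 3 → rst G (X ∪ S) ≤ K →
  Con K P → Disjoint P (X ∪ S) → (∀ s ∈ S, Tch K {s} P) → Planar K → Planar (rst G (X ∪ S) ⊔ cl S)

/-- THC.  Two connected sets `Q`, `Q'` in the connected set `C`, and three disjoint legs from the vertices `s i` of a triangle, touching both.
Proof.  Among all such configurations `(Q, Q', L)` in `H` (with fixed `C`, `s`) take one with `|Q| + |Q'|` maximal.  Let `M` be a component of `L i \ {s i}` (`Cmp H (L i \ {s i})ᶜ M`); it touches `s i`, and `L i \ M` is connected (StCMP (7)).  If `M` touches `Q` and not `Q'` then `Q ∪ M`, `Q'`, `L i \ M` (which touches `Q ∪ M` by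
`s i`, and `Q'` because `L i` does and `M` does not) is a larger configuration, contradiction; in the same way it is impossible that `M` touches `Q'` and not `Q`.  So for every `i` either (B) there is a connected `c i ⊆ L i \ {s i}`, touching `s i`, `Q`, `Q'`, or (A) `s i` itself touches `Q` and `Q'` (no component of `L i \ {s i}` touches `Q` or `Q'`).
All (A): NK.StPAR gives connected touching `K ⊇ Q`, `K' ⊇ Q'` with `K ∪ K' = C`; `K`, `K'`, `{s 0}`, `{s 1}`, `{s 2}` is a model of `K₅`.  Otherwise let `T = {s i | (B)}`, nonempty, connected; let `e i = c i` in case (B), `e i = {s i}` in case (A).  The sets `Q`, `Q'`, `T` and the sets `e 0`, `e 1`, `e 2` are a model of `K₃,₃` (`T` touches `c i` by `s i`, and `{s j}`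
in case (A) because all `s i` are adjacent). -/
def StTHC : Prop := ∀ (V : Type) [Finite V] (H : SimpleGraph V) (C : Set V) (s : Fin 3 → V) (Q Q' : Set V) (L : Fin 3 → Set V), Con H C →
  (∀ i, s i ∉ C) → (∀ i j, i ≠ j → H.Adj (s i) (s j)) → Q ⊆ C → Q' ⊆ C → Con H Q → Con H Q' → Disjoint Q Q' →
  (∀ i, Con H (L i) ∧ s i ∈ L i ∧ L i ⊆ insert (s i) C ∧ Disjoint (L i) Q ∧ Disjoint (L i) Q' ∧ Tch H Q (L i) ∧ Tch H Q' (L i)) →
  (∀ i j, i ≠ j → Disjoint (L i) (L j)) → ¬ Planar H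

/-- THR.  3-sums.  Proof.  Suppose `H` is not planar, `φ` a model of `Γ = K₅` or `K₃,₃` (StPTN (5)).  If no `φ w` is contained in `C`: StYMD with `K = add (rst H Cᶜ) y S`, `P = {y}` gives a contradiction.  So `φ w₀ ⊆ C` for some `w₀`.  If every `φ w` with `φ w ∩ S = ∅` is contained in `C`: StRSM, contradiction.
So there is `w₁` with `φ w₁ ∩ S = ∅`, not contained in `C`, so (connected, `C` closed) `φ w₁ ∩ C = ∅`.  `φ w₀`, `φ w₁` do not touch, so `w₀`, `w₁` are not adjacent: `Γ = K₃,₃`, `w₀ ≠ w₁` in the same class.  Every `w` in the other class is adjacent to both; `φ w ∩ S ≠ ∅`, because otherwise `φ w ⊆ C` (it touches `φ w₀`) and it would not touch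
`φ w₁`.  So every one of the three `φ w` in the other class contains exactly one element `s w` of `S` (`|S| = 3`); `φ w₂ ∩ S = ∅` for the third element `w₂` of the class of `w₀`, so `φ w₂ ⊆ C` or `φ w₂ ∩ C = ∅`.
If `φ w₂ ∩ C = ∅`: `{y}, φ w₁, φ w₂` and the three sets `φ w \ C` are a model of `K₃,₃` in `add (rst H Cᶜ) y S` (`φ w \ C` is connected in `H` because it is obtained by leaving `C` through `s w` only: same argument as in StYMD (2); it contains `s w`, which is adjacent to `y`; the edges from `φ w₁` to `φ w` do not end in `C`).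
If `φ w₂ ⊆ C`: StTHC for the graph `rst H (C ∪ S) ⊔ cl S` with `Q = φ w₀`, `Q' = φ w₂`, `L = φ w ∩ (C ∪ S)` (connected as in StRSM; it is contained in `insert (s w) C`). -/
def StTHR : Prop := ∀ (V : Type) [Finite V] (H : SimpleGraph V) (C S : Set V) (y : V), S.ncard = 3 → Disjoint C S → Con H C →
  (∀ x ∈ C, ∀ z, z ∉ S → H.Adj x z → z ∈ C) → y ∈ C → Planar (rst H (C ∪ S) ⊔ cl S) → Planar (add (rst H Cᶜ) y S) → Planar H

/-! ### components of `G - S` -/

/-- STG.  Every `s ∈ S` has a component with `Stg`.  Proof.  `S \ {s} = {p, q}`, `p ≠ q`.  StTWO for `H = rst G {s}ᶜ` and the family of all components of `G - S` (they cover all vertices outside `S`, StCMP (1); `s` is isolated in `H`; a component is closed).  `rst H (C ∪ {p, q}) = rst G (C ∪ {p, q})` since `s ∉ C ∪ {p, q}`. -/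
def StSTG : Prop := ∀ (V : Type) [Finite V] (G : SimpleGraph V) (S : Set V), (∀ v, ¬ Planar (rst G {v}ᶜ)) → S.ncard = 3 →
  ∀ s ∈ S, ∃ C, Cmp G S C ∧ Stg G S C s

/-- the two kinds of partitions of a component produced by StRTP -/
def Rtp {V : Type} (G : SimpleGraph V) (S C : Set V) : Prop :=
  (∃ Y Z : Set V, Y ∪ Z = C ∧ Disjoint Y Z ∧ Con G Y ∧ Con G Z ∧ Tch G Y Z ∧
    ∃ i ∈ S, Tch G {i} Z ∧ (∀ s ∈ S, s ≠ i → Tch G {s} Y) ∧ ∃ j ∈ S, j ≠ i ∧ Tch G {j} Z) ∨
  (∃ (z : V) (Y Z : Set V), z ∉ Y ∧ z ∉ Z ∧ insert z (Y ∪ Z) = C ∧ Disjoint Y Z ∧ Con G Y ∧ Con G Z ∧ Tch G Y Z ∧ Tch G {z} Y ∧ Tch G {z} Z ∧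
    ∃ i ∈ S, ∃ j ∈ S, ∃ k ∈ S, i ≠ j ∧ j ≠ k ∧ i ≠ k ∧ Tch G {i} Y ∧ Tch G {j} Z ∧ G.Adj z k)

/-- a contraction of the component `C` to one vertex `y` adjacent to all elements of `S`, which creates an edge between two elements of `S` -/
def Rty {V : Type} (G : SimpleGraph V) (S C : Set V) (y : V) (ρ : V → V) : Prop :=
  y ∈ C ∧ ρ y = y ∧ (∀ x, x ∉ C → ρ x = x) ∧ (∀ x ∈ C, ρ x = y ∨ ρ x ∈ S) ∧ (∀ x, Con G {z | ρ z = ρ x}) ∧
    (∀ s ∈ S, (quo G Set.univ ρ).Adj y s) ∧ ∃ a ∈ S, ∃ b ∈ S, (quo G Set.univ ρ).Adj a b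

/-- RTP.  Proof.  For `Y ⊆ C` let `T Y = {s ∈ S | Tch G {s} Y}`; `T C = S` (StCMP (4)).  A bipartition `(Y, Z)`: `Y ∪ Z = C`, disjoint, both connected; then they touch (AJ.StCon (1)) and `T Y ∪ T Z = S`.  There is one (AJ.StCon (3), or (2), as `|C| ≥ 2`).
CASE 1: a bipartition with `|T Y| ≥ 2` and `|T Z| ≥ 2`.  If there is `i ∈ S \ T Y` then `T Y = S \ {i}`, `i ∈ T Z`; otherwise take any `i ∈ T Z`.  `j ∈ T Z`, `j ≠ i`.  First kind.
CASE 2: every bipartition has `|T Y| ≤ 1` or `|T Z| ≤ 1`.  Take one with `|T Y| ≤ 1` and `|Y|` maximal.  `T Y ⊆ {t₀}`, `t₀ ∈ S`.  (a) `Z` has at least two elements: if `Z = {z}` then StCMP (6) for `Y`, `a = z`, `b = t₀` gives an edge from `Y` to `w ∉ Y`, `w ≠ z, t₀`; `w ∈ C` is impossible, and `w ∈ S` gives `w ∈ T Y`, `w = t₀`, contradiction.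
(b) CLAIM: there is `z ∈ Z` touching `Y` with `Z \ {z}` connected.  Suppose not.  For `z ∈ Z` touching `Y` (there is one) the set `Z \ {z}` is not empty and not connected, so it has a component `K ≠ Z \ {z}`.  Choose `(z, K)` with `|K|` minimal among all pairs with `z ∈ Z` touching `Y`, `K` a component of `Z \ {z}`, `K ≠ Z \ {z}`.
`Z \ K` is connected (StCMP (7)) and contains `z`, so `Y' = Y ∪ (Z \ K) = C \ K` is connected; `(Y', K)` is a bipartition, `|Y'| > |Y|`, so `|T Y'| ≥ 2`, so `|T K| ≤ 1`, `T K ⊆ {t₁}`, `t₁ ∈ S`.  StCMP (6) for `K`, `a = z`, `b = t₁`: an edge from `x ∈ K` to `w ∉ K`, `w ≠ z, t₁`.  `w ∈ S` gives `w ∈ T K`, no; `w ∈ Z` gives `w ∈ K`, no; so `w ∈ Y`, `x` touches `Y`.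
By assumption `Z \ {x}` is not connected.  `Z \ K ⊆ Z \ {x}` is connected, so inside one component of `Z \ {x}`; another component `K'` of `Z \ {x}` is contained in `K \ {x}`, `|K'| < |K|`, `K' ≠ Z \ {x}`: contradiction to the choice.
(c) Let `z` be as in the claim, `Z' = Z \ {z}`.  `(Y ∪ {z}, Z')` is a bipartition, so `|T (Y ∪ {z})| ≥ 2`, so `|T Z'| ≤ 1`, `T Z' ⊆ {t₁}`, `t₁ ∈ S`.  `Y` touches `Z'`: StCMP (6) for `Y`, `a = z`, `b = t₀`.  StCMP (6) for `Y ∪ Z'`, `a = z`, `b = t₁` gives an edge from `Y ∪ Z'` to `w`, `w ≠ z, t₁`, not in `Y ∪ Z'`, so `w ∈ S`, `w ∈ T Y` (as `T Z' ⊆ {t₁}`), so `w = t₀ ∈ T Y` and `t₀ ≠ t₁`;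
with `b = t₀` in the same way `t₁ ∈ T Z'`.  The third element `k` of `S` is attached to `C` (StCMP (4)), not to `Y`, not to `Z'`, so `G.Adj z k`.  `z` touches `Z'` because `Z` is connected.  Second kind, `i = t₀`, `j = t₁`. -/
def StRTP : Prop := ∀ (V : Type) [Finite V] (G : SimpleGraph V) (S C : Set V), Kc 3 G Set.univ → S.ncard = 3 → Cmp G S C → 2 ≤ C.ncard → Rtp G S C

/-- RTQ.  Proof.  First kind: `y ∈ Y` arbitrary, `ρ x = y` for `x ∈ Y`, `ρ x = i` for `x ∈ Z`, `ρ x = x` for `x ∉ C`.  The fibres are `Y`, `Z ∪ {i}` (connected, as `i` touches `Z`) and single vertices.  `y` is adjacent in the quotient to all `s ≠ i` (`s` touches `Y`) and to `i` (`Y` touches `Z`); `i` is adjacent to `j` (`j` touches `Z`).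
Second kind: `y = z`, `ρ x = i` on `Y`, `ρ x = j` on `Z`, `ρ x = x` otherwise.  `z` is adjacent to `i`, `j`, `k`; `i` is adjacent to `j` (`Y` touches `Z`).  (`i, j, k` are all elements of `S`.) -/
def StRTQ : Prop := ∀ (V : Type) [Finite V] (G : SimpleGraph V) (S C : Set V), S.ncard = 3 → Cmp G S C → Rtp G S C → ∃ y ρ, Rty G S C y ρ

/-- PLC.  Components of planar type are single vertices.  Proof.  Suppose `|C| ≥ 2`; StRTP, StRTQ: `y`, `ρ`; `H = quo G univ ρ`.  There is an edge `x x'` with `ρ x = ρ x'`: take `x ∈ C`, `x ≠ y`; its fibre contains `x` and `ρ x ≠ x` (`ρ x = y`, or `ρ x ∈ S`), it is connected.  `Mnm` gives `v` with `K = rst H {v}ᶜ` planar.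
For every `s ∈ S` there is a component `C' ≠ C` with `Stg G S C' s` (StSTG; `Stg G S C s` is false, because `rst G (C ∪ S \ {s}) ⊔ cl (S \ {s}) ≤ rst G (C ∪ S) ⊔ cl S`, NK.StKCA (6)).
(i) `v ∈ C`: let `a, b ∈ S` be adjacent in `H` (so `a ≠ b`), `s` the third element of `S`, `S \ {s} = {a, b}`, `C'` for `s`; `rst G (C' ∪ {a, b}) ≤ K` (`ρ` is the identity outside `C`, `v` is not in this set; StQUO (3)), `K.Adj a b`; StLNK: contradiction.
(ii) `v ∈ S`: `C'` for `v`, `S \ {v} = {a, b}`; `a` and `b` are linked in `K` by `P = {y}`; StLNK: contradiction.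
(iii) `v ∉ C ∪ S`: StTHR for `rst G {v}ᶜ`, `C`, `S`, `y`: `rst (rst G {v}ᶜ) (C ∪ S) = rst G (C ∪ S)`, and `add (rst (rst G {v}ᶜ) Cᶜ) y S ≤ K`.  So `rst G {v}ᶜ` is planar, contradiction to `Mnm`. -/
def StPLC : Prop := ∀ (V : Type) [Finite V] (G : SimpleGraph V) (S C : Set V), Mnm G → Kc 3 G Set.univ → S.ncard = 3 → Cmp G S C →
  ¬ Npl G S C → C.ncard = 1

/-- the structure found in StK5F: three connected sets `F s ∋ s` and two more connected sets `Q`, `Q'`, forming `K₅` except for the edges between the `F s` -/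
def Fiv {V : Type} (G : SimpleGraph V) (S X : Set V) (F : V → Set V) (Q Q' : Set V) : Prop :=
  (∀ s ∈ S, s ∈ F s ∧ F s ⊆ X ∪ {s} ∧ Con G (F s)) ∧ (∀ s ∈ S, ∀ t ∈ S, s ≠ t → Disjoint (F s) (F t)) ∧
  Q ⊆ X ∧ Q' ⊆ X ∧ Con G Q ∧ Con G Q' ∧ Disjoint Q Q' ∧ Tch G Q Q' ∧
  ∀ s ∈ S, Disjoint (F s) Q ∧ Disjoint (F s) Q' ∧ Tch G Q (F s) ∧ Tch G Q' (F s)

/-- K5F.  Proof.  Let `φ` be a model of `Γ = K₅` or `K₃,₃` in `H = rst G (X ∪ S) ⊔ cl S` (StPTN (5)).  (a) If two elements `s ≠ s'` of `S` are in the same `φ w`, or if some element of `S` is in no `φ w` (let `s`, be one of the two others), then `φ` is a model in `rst G (X ∪ S) ⊔ str s S`, contradiction: in the first case an edge `s' s''` of `cl S` (`s''` the third element), used for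
connectedness or for touching, can be replaced by the path `s' s s''`, resp. by the edge `s s''`; in the second case the edge opposite to `s` is not used.  (b) So the elements of `S` are in three different sets `φ (w s)`.  If `Γ = K₃,₃` then `w s`, `w s'` are not adjacent for some `s ≠ s'` (no triangles), so `φ` is a model in
`rst G (X ∪ S) ⊔ str s'' S`, contradiction.  So `Γ = K₅`; `F s = φ (w s)`, `Q`, `Q'` the two other branch sets, contained in `X`.  All edges used between `Q`, `Q'`, `F s`, and inside these sets, are edges of `G` (an edge of `cl S` has its two ends in different `F s`).  (Branch sets lie in `X ∪ S`: every element has a neighbour in `H`.) -/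
def StK5F : Prop := ∀ (V : Type) [Finite V] (G : SimpleGraph V) (S X : Set V), S.ncard = 3 → Disjoint X S →
  ¬ Planar (rst G (X ∪ S) ⊔ cl S) → (∀ s ∈ S, Planar (rst G (X ∪ S) ⊔ str s S)) → ∃ F Q Q', Fiv G S X F Q Q'

/-- M3A.  Proof.  `S = {s, t, u}` for any choice of `s ∈ S`.  Contract `Cc` into `s`: `ρ x = s` on `Cc`, `ρ x = x` otherwise, `D = univ`, `G₀ = G`; the fibre `Cc ∪ {s}` is connected (StCMP (4)) and contains an edge.  `H = quo G univ ρ` contains `rst G Ccᶜ` and the edges `s t`, `s u` (`t`, `u` touch `Cc`).  `Mnm` gives `v`, `K = rst H {v}ᶜ` planar.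
If `v ∉ S`: `v ∉ Ca` or `v ∉ Cb`, say `v ∉ Ca` (same for `Cb`); `Stg G S Ca i` for some `i`, `S \ {i} = {a, b}`; `a`, `b` are linked in `K`: if one of them is `s` they are adjacent, and if `i = s` they are linked by `P = {s}`; StLNK: contradiction.  If `v = s`: `Stg G S Ca s` or `Stg G S Cb s`, say `Ca`; `t`, `u` are linked in `K` by `P = Cb` (resp. `Ca`); StLNK.  If `v = t`: `Stg G S Ca t`
or `Stg G S Cb t`; `s`, `u` are adjacent in `K`; StLNK.  Same for `u`. -/
def StM3A : Prop := ∀ (V : Type) [Finite V] (G : SimpleGraph V) (S Ca Cb Cc : Set V), Mnm G → Kc 3 G Set.univ → S.ncard = 3 →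
  Cmp G S Ca → Cmp G S Cb → Cmp G S Cc → Ca ≠ Cb → Cb ≠ Cc → Ca ≠ Cc → (∃ i ∈ S, Stg G S Ca i) → (∃ i ∈ S, Stg G S Cb i) →
  (∀ s ∈ S, Stg G S Ca s ∨ Stg G S Cb s) → False

/-- M3S.  Proof.  Let `S = {s, t, u}`; contract `Cc` into `s` as in StM3A: `H`, `v`, `K`.  `v ∈ Ca`: otherwise: if `v ∉ S` then `Stg G S Ca t` and `s`, `u` are adjacent in `K`: StLNK, contradiction; if `v = s`: `Stg G S Ca s`, `t` and `u` are linked by `P = Cb`; if `v = t`: `Stg G S Ca t`, `s`, `u` adjacent; same for `u`.  So `v ∈ Ca`, and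
`rst G (Cb ∪ S) ⊔ str s S ≤ K` is planar. -/
def StM3S : Prop := ∀ (V : Type) [Finite V] (G : SimpleGraph V) (S Ca Cb Cc : Set V), Mnm G → Kc 3 G Set.univ → S.ncard = 3 →
  Cmp G S Ca → Cmp G S Cb → Cmp G S Cc → Ca ≠ Cb → Cb ≠ Cc → Ca ≠ Cc → (∀ s ∈ S, Stg G S Ca s) →
  ∀ s ∈ S, Planar (rst G (Cb ∪ S) ⊔ str s S)

/-- M3K.  Proof.  `q ∈ Q`, `q' ∈ Q'`, `w ∈ Cc`.  `D = Ca ∪ S ∪ Cc ∪ (⋃ s ∈ S, F s) ∪ Q ∪ Q'`; `G₀` is `G` without the edges between `Q` and `Q'`; `ρ z = s` on `F s`, `q` on `Q`, `q'` on `Q'`, `w` on `Cc`, `ρ z = z` otherwise.  The fibres (in `D`) are `F s`, `Q`, `Q'`, `Cc`, single vertices of `Ca`: connected in `G`.  An edge between `Q` and `Q'` is lost.  So `Mnm` gives `v` with `K = rst (quo G₀ D ρ) {v}ᶜ` planar.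
`quo G₀ D ρ` contains `rst G (Ca ∪ S)`, and `q`, `q'`, `w` are adjacent to all `s ∈ S`.  If `v ∈ Ca`: `{q}, {q'}, {w}` and the three `{s}` are a model of `K₃,₃` in `K`.  If `v ∉ Ca ∪ S`: one of `q, q', w` is not `v`, call it `p`; for any `i ∈ S`, `S \ {i} = {a, b}`: `Stg G S Ca i`, `a` and `b` are linked by `{p}`; StLNK.  If `v ∈ S`: `Stg G S Ca v`, the two others are linked by `{q}`. -/
def StM3K : Prop := ∀ (V : Type) [Finite V] (G : SimpleGraph V) (S Ca Cb Cc : Set V) (F : V → Set V) (Q Q' : Set V), Mnm G → Kc 3 G Set.univ → S.ncard = 3 →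
  Cmp G S Ca → Cmp G S Cb → Cmp G S Cc → Ca ≠ Cb → Cb ≠ Cc → Ca ≠ Cc → (∀ s ∈ S, Stg G S Ca s) → Fiv G S Cb F Q Q' → False

/-- M3D.  Proof.  `G₀` is `G` without the edges between `C 2` and `s 2`; `D = univ`, `ρ = id`, `quo G₀ univ id = G₀`.  `s 2` touches `C 2` (StCMP (4)), so an edge is lost.  `Mnm`: `v`, `K = rst G₀ {v}ᶜ` planar.  If `v = s i`: `rst G (C i ∪ {a, b}) ≤ K` where `{a, b} = S \ {s i}` (for `i ≠ 2` the set does not meet `C 2`), and `a`, `b` are linked in `K` by `P = C j`, `j ≠ i`, `j ≠ 2` (for `i = 2`: `j = 0`;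
for `i = 0`: `j = 1`; for `i = 1`: `j = 0`); StLNK contradicts `Stg G S (C i) (s i)`.  If `v ∉ S` and `v ∉ C 2`: the same with `i = 2` and one of `C 0`, `C 1` which does not contain `v`.  If `v ∈ C 2`: the same with `i = 0`, `j = 1`. -/
def StM3D : Prop := ∀ (V : Type) [Finite V] (G : SimpleGraph V) (S : Set V) (C : Fin 3 → Set V) (s : Fin 3 → V), Mnm G → Kc 3 G Set.univ → S.ncard = 3 →
  (∀ i, Cmp G S (C i)) → (∀ i j, i ≠ j → C i ≠ C j) → (∀ i, s i ∈ S) → Function.Injective s → (∀ i, Stg G S (C i) (s i)) → False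

/-- M3E.  Proof.  `D = (C 4)ᶜ`, `G₀ = G`, `ρ = id`; an edge is lost (`C 4` touches `S`).  `Mnm`: `v`, `K` planar, `K` is `G` restricted to `(C 4)ᶜ \ {v}`.  If `v ∈ C 0`: `C 1, C 2, C 3` and the three `{s}` are a model of `K₃,₃` in `K` (StCMP (4)).  If `v ∉ C 0 ∪ S`: one of `C 1, C 2` does not contain `v` and links the two elements of `S \ {i}` (any `i ∈ S`): StLNK contradicts `Stg G S (C 0) i`.
If `v ∈ S`: `C 1` links the two others, `Stg G S (C 0) v`. -/
def StM3E : Prop := ∀ (V : Type) [Finite V] (G : SimpleGraph V) (S : Set V) (C : Fin 5 → Set V), Mnm G → Kc 3 G Set.univ → S.ncard = 3 →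
  (∀ i, Cmp G S (C i)) → (∀ i j, i ≠ j → C i ≠ C j) → (∀ s ∈ S, Stg G S (C 0) s) → False

/-- TRI.  Three or more components.  Proof.  Let `S = {s 0, s 1, s 2}` and `C i` a component with `Stg G S (C i) (s i)` (StSTG).  Not all three are different (StM3D).  If exactly two are different, say `C i = C j ≠ C k`: there is a third component, StM3A (`Ca = C i`, `Cb = C k`): contradiction.  So there is `C₀` with `Stg G S C₀ s` for all `s ∈ S`.
(2) Let `Cb ≠ C₀` be a component; there is a third one `Cc`; if `Npl G S Cb` then StM3S, StK5F (`X = Cb`), StM3K give a contradiction; so StPLC: one vertex.  (1) If there were at least five components: `C₀` and four others: StM3E. -/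
def StTRI : Prop := ∀ (V : Type) [Finite V] (G : SimpleGraph V) (S : Set V), Mnm G → Kc 3 G Set.univ → S.ncard = 3 → 3 ≤ {C | Cmp G S C}.ncard →
  {C | Cmp G S C}.ncard ≤ 4 ∧ ∃ C₀, Cmp G S C₀ ∧ ∀ C, Cmp G S C → C ≠ C₀ → C.ncard = 1

end Pool.Agent.Helper12.TS
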