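import Pool.Agent.Helper12.TS.St

/-!
# Project TS (MP_d63854_co): statements of the modules (second part: tight cuts), with proofs

See the beginning of `TS/St.lean` for the facts which may be used.
-/

set_option autoImplicit false

namespace Pool.Agent.Helper12.TS

open Pool.Agent.Helper51.AJ (IsMinor Planar Apex ExMinor Con Tch)
open Pool.Agent.Helper12.NK (rst Kc add)

/-! ### Menger's theorem for two paths -/

/-- MN2.  Two disjoint connected sets between `U` and `E` (Menger).  Proof.  Induction on the number of edges of `H` (all `Φ`, `U`, `E` at once).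
(0) If no edge of `H` has both ends in `Φ`: connected subsets of `Φ` are single vertices; some `{a}` meets `U` and `E`; the hypothesis for `v = a` gives `{b}`, `b ≠ a`.
(1) Let `x y` be an edge, `x, y ∈ Φ`, `H₀` the graph without this edge.  If the hypothesis holds for `H₀`: induction.  Otherwise there is `v` such that (*) no `T ⊆ Φ \ {v}` connected in `H₀` meets `U` and `E`.  `v ∈ Φ`: otherwise the set `T` of the hypothesis for `x` (in `H`) does not contain `x`, so it is connected in `H₀`, contradiction to (*).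
Let `T₀ ⊆ Φ \ {v}` be connected in `H` and meet `U` and `E`.  It contains `x` and `y` (else it is connected in `H₀`), so `v ≠ x, y`, and it is the union of `T_x ∋ x` and `T_y ∋ y`, connected in `H₀` (the sets of the vertices of `T₀` reachable in `T₀` without the edge `x y` from `x`, resp. `y`).  By (*) none of them meets both `U` and `E`, so (exchange `x`, `y` if necessary) `T_x` meets `U`, `T_y` meets `E`.
(2) Let `Φ_U` be `v` together with all `z` in some `T ⊆ Φ \ {v}` connected in `H₀` which meets `U`, and `Φ_E` the same with `E`.  `x ∈ Φ_U`, `y ∈ Φ_E`, and `Φ_U ∩ Φ_E = {v}` by (*) (two such sets with a common element have a connected union).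
(3) The hypothesis holds for `H₀`, `Φ_U`, `U`, `{v, x}`: let `w` be given and let `T ⊆ Φ \ {w}` be connected in `H` and meet `U` and `E`.  Take a vertex `u ∈ T ∩ U` and let `T'` be the set of the vertices of `T \ {v, x}` reachable from `u` in it in `H` (if `u ∈ {v, x}` the set `{u}` is what we want).  `T'` is connected in `H₀` (it does not contain `x`), `T' ⊆ Φ \ {v}`, so `T' ⊆ Φ_U`, `T'` does not
meet `E` by (*), so `T' ≠ T`, and there is an edge of `H` from some `z ∈ T'` to `T \ T'`, it ends in `v` or `x`; it is not the edge `x y`, because `z = y` would give `y ∈ Φ_U`.  So `T' ∪ {v}` or `T' ∪ {x}` is connected in `H₀`, contained in `Φ_U \ {w}`, and meets `U` and `{v, x}`.  By induction there are disjoint `T₁ ∋ v`, `T₂ ∋ x` in `Φ_U`, connected in `H₀`, meeting `U`.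
In the same way (with `E`, `y`) there are disjoint `S₁ ∋ v`, `S₂ ∋ y` in `Φ_E`, connected in `H₀`, meeting `E`.  `T₁ ∪ S₁` and `T₂ ∪ S₂` are connected in `H`, contained in `Φ`, meet `U` and `E`, and are disjoint (`T₁ ∩ S₂ ⊆ {v}`, `v ∉ S₂`; `T₂ ∩ S₁ ⊆ {v}`, `v ∉ T₂`). -/
def StMN2 : Prop := ∀ (V : Type) [Finite V] (H : SimpleGraph V) (Φ U E : Set V), Φ.Nonempty →
  (∀ v, ∃ T ⊆ Φ \ {v}, Con H T ∧ (T ∩ U).Nonempty ∧ (T ∩ E).Nonempty) →
  ∃ T ⊆ Φ, ∃ T' ⊆ Φ, Con H T ∧ Con H T' ∧ Disjoint T T' ∧ (T ∩ U).Nonempty ∧ (T ∩ E).Nonempty ∧ (T' ∩ U).Nonempty ∧ (T' ∩ E).Nonempty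

/-- MEN.  Proof.  StMN2 and NK.StPAR. -/
def StMEN : Prop := ∀ (V : Type) [Finite V] (H : SimpleGraph V) (Φ U E : Set V), Con H Φ →
  (∀ v, ∃ T ⊆ Φ \ {v}, Con H T ∧ (T ∩ U).Nonempty ∧ (T ∩ E).Nonempty) →
  ∃ T T' : Set V, T ∪ T' = Φ ∧ Con H T ∧ Con H T' ∧ Disjoint T T' ∧ (T ∩ U).Nonempty ∧ (T ∩ E).Nonempty ∧ (T' ∩ U).Nonempty ∧ (T' ∩ E).Nonempty

/-! ### models and contractions -/

/-- SPM.  Spanning models.  Proof.  StPTN (8) gives `ι`, `Γ` and a model.  Among all models `φ` of this `Γ` in `H` take one with `|⋃ φ i|` maximal.  `⋃ φ i ⊆ U`: an element of `φ i` has a neighbour in `H` (in `φ i`, or in another branch set if `φ i` is a single vertex; StPTN (10)).  If `⋃ φ i ≠ U` then there is an edge of `H` from some `x ∈ φ i` to `y ∈ U`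
in no branch set (AJ.StCon (1)); adding `y` to `φ i` gives a larger model. -/
def StSPM : Prop := ∀ (V : Type) [Finite V] (H : SimpleGraph V) (U : Set V), (∀ x y, H.Adj x y → x ∈ U) → Con H U → ¬ Planar H →
  ∃ (ι : Type) (_ : Finite ι) (Γ : SimpleGraph ι) (φ : ι → Set V),
    Nat.card ι ≤ 6 ∧ Kc 3 Γ Set.univ ∧ ¬ Planar Γ ∧ Md Γ H φ ∧ (⋃ i, φ i) = U

/-- VOR.  Proof.  Consider families of connected (in `G`) pairwise disjoint sets `P t ⊆ Φ`, `t ∈ Φ ∩ T`, with `P t ∩ T = {t}` (e.g. `P t = {t}`) and take one with `|⋃ P t|` maximal.  If the union is not `Φ` then there is an edge of `rst G U ⊔ D` from some `x ∈ P t` to `y ∈ Φ` in no `P t'` (AJ.StCon (1)); `y ∉ T`, so the edge is not in `D ≤ cl T`, so `G.Adj x y`; adding `y` to `P t` gives a larger family. -/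
def StVOR : Prop := ∀ (V : Type) [Finite V] (G D : SimpleGraph V) (U T Φ : Set V), D ≤ cl T → Con (rst G U ⊔ D) Φ → (Φ ∩ T).Nonempty →
  ∃ P : V → Set V, (∀ t ∈ Φ ∩ T, Con G (P t) ∧ P t ∩ T = {t}) ∧ (∀ t ∈ Φ ∩ T, ∀ t' ∈ Φ ∩ T, t ≠ t' → Disjoint (P t) (P t')) ∧
    (⋃ t ∈ Φ ∩ T, P t) = Φ

/-- MDE.  From parts `P t` to a retraction.  Proof.  Every `x ∈ A` is in exactly one `φ i`.  If `φ i ∩ T ≠ ∅` then `x` is in exactly one `P t`, `t ∈ φ i ∩ T`: `ρ x = t`.  Otherwise `ρ x = r i` with a fixed `r i ∈ φ i` (so `r i ∈ A`).  `ρ x = x` for `x ∉ A`.  The fibres are the sets `P t` (`t ∈ T`; `P t ∩ T = {t}`, `P t ⊆ A ∪ {t}`), the `φ i` with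
`φ i ∩ T = ∅` (connected in `G`: an edge of `D ≤ cl T` has its ends in `T`), and single vertices outside `A ∪ T`. -/
def StMDE : Prop := ∀ (V ι : Type) [Finite V] [Finite ι] (G D : SimpleGraph V) (A T : Set V) (Γ : SimpleGraph ι) (φ : ι → Set V) (P : V → Set V),
  Disjoint A T → D ≤ cl T → Kc 3 Γ Set.univ → ¬ Planar Γ → Nat.card ι ≤ 6 → Md Γ (rst G (A ∪ T) ⊔ D) φ → (⋃ i, φ i) = A ∪ T →
  (∀ t ∈ T, Con G (P t) ∧ t ∈ P t ∧ P t ⊆ A ∪ {t}) → (∀ t ∈ T, ∀ t' ∈ T, t ≠ t' → Disjoint (P t) (P t')) →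
  (∀ i, (φ i ∩ T).Nonempty → φ i = ⋃ t ∈ φ i ∩ T, P t) →
  ∃ ρ, Mdl G D A T Γ φ ρ ∧ ∀ t ∈ T, {z | ρ z = t} = P t

/-- MDQ.  Proof.  (1) `StPTN (6)`: a model of `Γ` in `K = rst (quo G univ ρ) (Rr A ρ ∪ T) ⊔ D`: `ψ i = ρ '' φ i`.  It is contained in `φ i` (`inv`) and in `Rr A ρ ∪ T` (`inn`, `idp`), so disjoint; connected and touching: an edge `x y` of `rst G (A ∪ T) ⊔ D` with `ρ x ≠ ρ y` gives an edge `ρ x ρ y` of `K` (if it is an edge of `D` then `ρ x = x`, `ρ y = y`);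
walks are mapped to walks with repetitions.  (2) Let `r ∈ Rr A ρ`; `r ∈ φ i` for some `i` (`cov`), and `φ i ∩ T = ∅` by `root` (`ρ r = r ∈ A`, not in `T`).  `r ↦ i` is injective by `sgl`.  Some `φ i` meets `T`, so at most five. (3) If `φ i ∩ T = ∅` then `φ i ⊆ Zz A ρ` and `φ i` is a fibre (by `inv` and disjointness); `Zz A ρ` is the union of these sets (if `ρ z ∈ A`, `z ∈ φ i`, then `φ i ∩ T = ∅` by `root`).
(4) Edges of `rst G (A ∪ T) ⊔ D` with an end in `Zz A ρ` are edges of `G` (the end is not in `T`).  So the union over a connected set of such indices is connected in `G` (StPTN (7); `Con` only depends on the edges inside), and touching sets, one of them such a `φ i`, touch in `G`. -/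
def StMDQ : Prop := ∀ (V ι : Type) [Finite V] [Finite ι] (G D : SimpleGraph V) (A T : Set V) (Γ : SimpleGraph ι) (φ : ι → Set V) (ρ : V → V),
  Disjoint A T → T.Nonempty → D ≤ cl T → Mdl G D A T Γ φ ρ →
  ¬ Planar (rst (quo G Set.univ ρ) (Rr A ρ ∪ T) ⊔ D) ∧ (Rr A ρ).ncard ≤ 5 ∧
  (Zz A ρ = ⋃ i ∈ {i | ¬ (φ i ∩ T).Nonempty}, φ i) ∧
  (∀ i, ¬ (φ i ∩ T).Nonempty → ∀ x ∈ φ i, {z | ρ z = ρ x} = φ i) ∧
  (∀ K ⊆ {i | ¬ (φ i ∩ T).Nonempty}, Con Γ K → Con G (⋃ i ∈ K, φ i)) ∧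
  (∀ i j, ¬ (φ i ∩ T).Nonempty → Γ.Adj i j → Tch G (φ i) (φ j)) ∧
  (∀ i, (φ i ∩ T).Nonempty → φ i ⊆ {z | ρ z ∈ T})

/-- REF.  Refinements keep nonplanarity.  Proof.  NK.StPTR with `f a = ρ' '' {z | ρ z = a}`, from `rst (quo G univ ρ) (Rr A ρ ∪ T) ⊔ D` to `rst (quo G univ ρ') (Rr A ρ' ∪ T) ⊔ D`.  Let `a ∈ Rr A ρ ∪ T` (all vertices with a neighbour), `ρ a = a`, so `{z | ρ z = a}` is a fibre, connected in `G`, and `f a` is connected in `quo G univ ρ'` (StQUO (1)).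
If `a ∈ A` then the fibre is in `A`, and `ρ' z ∈ Rr A ρ'` for `z` in it: `ρ' z ∈ A ∪ T`, `ρ' (ρ' z) = ρ' z`, and `ρ' z = t ∈ T` would give `ρ' z = ρ' t`, `ρ z = ρ t = t`, `a = t`, no.  If `a ∈ T`: the fibre is in `A ∪ {a}`, `f a ⊆ Rr A ρ' ∪ T`, `a ∈ f a`.  The sets `f a` are disjoint for different `a`.  An edge `a b` of the first quotient comes from an edge `x y` of `G` with `ρ x = a ≠ b = ρ y`, so
`ρ' x ≠ ρ' y`, an edge between `f a` and `f b`; an edge `t t'` of `D`: `t ∈ f t`, `t' ∈ f t'`. -/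
def StREF : Prop := ∀ (V : Type) [Finite V] (G D : SimpleGraph V) (A T : Set V) (ρ ρ' : V → V), Disjoint A T → D ≤ cl T →
  Rtr G A T ρ → Rtr G A T ρ' → (∀ x y, ρ' x = ρ' y → ρ x = ρ y) →
  Planar (rst (quo G Set.univ ρ') (Rr A ρ' ∪ T) ⊔ D) → Planar (rst (quo G Set.univ ρ) (Rr A ρ ∪ T) ⊔ D)

/-! ### case alpha: `A` is needed when `s` is deleted -/

/-- APM.  Proof.  `T = S \ {s} = {t, t'}`, `H = rst G (A ∪ T) ⊔ cl T`, not planar; `A ∪ T` is connected in it (StCMP (4)).  StSPM: `ι, Γ, φ`.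
CASE D: `t ∈ φ i`, `t' ∈ φ i'`, `i ≠ i'`.  `P t = φ i`, `P t' = φ i'` (connected in `G`: no edge of `cl T` inside); StMDE.  `i` has a neighbour `j ≠ i'` in `Γ` (StPTN (10)), `φ j ∩ T = ∅`, so `φ i` touches `φ j ⊆ Zz A ρ` in `G`.  Same for `i'`.
CASE S: `t, t' ∈ φ i`.  Let `X` be the union of the `φ j`, `j ≠ i`: nonempty, contained in `A`, connected in `G` (Kc 3 for `Γ`, StPTN (7)).  `E = {x ∈ φ i | x has a neighbour of `G` in `X`}`.  We apply StMEN to `H`, `Φ = φ i`, `U = T`, `E`.  Let `v` be given.  If `v ∉ φ i`: `φ i` itself is the set (`E ≠ ∅`: `i` has a neighbour in `Γ`).  Let `v ∈ φ i` and suppose no connected (in `H`)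
subset of `φ i \ {v}` meets `T` and `E`.  Let `W` be the union of `X` and all components (in `H`) of `φ i \ {v}` which meet `E`; it is a nonempty subset of `A` (no such component meets `T`).  StCMP (6) for `W`, `a = v`, `b = s`: `x ∈ W`, `z ∉ W`, `z ≠ v, s`, `G.Adj x z`; `z ∈ A ∪ S`, so `z ∈ A ∪ T`, so `z ∈ φ i \ {v}`.  If `x ∈ X` then `z ∈ E`, the component of `z` is in `W`, contradiction; otherwise
`x` is in one of the components, and `z` in the same, contradiction.  StMEN gives `φ i = P ∪ P'`, both meeting `T` and `E`, say `t ∈ P`, `t' ∈ P'`; connected in `G`, since each contains only one element of `T`.  StMDE with `P t = P`, `P t' = P'`.  They touch `X = Zz A ρ` since they meet `E`. -/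
def StAPM : Prop := ∀ (V : Type) [Finite V] (G : SimpleGraph V) (S A : Set V) (s : V), Kc 3 G Set.univ → S.ncard = 3 → Cmp G S A → s ∈ S →
  Stg G S A s → ∃ (ι : Type) (_ : Finite ι) (Γ : SimpleGraph ι) (φ : ι → Set V) (ρ : V → V), Mdl G (cl (S \ {s})) A (S \ {s}) Γ φ ρ ∧
    ∀ t ∈ S \ {s}, Tch G (Zz A ρ) {z | ρ z = t}

/-- APU.  Proof.  `J = {j | φ j ∩ T = ∅}`, its complement `I` has one or two elements.  First part of `Uu`: `Z = Zz A ρ = ⋃ j ∈ J, φ j` (StMDQ (3)) is connected in `G` (`Con Γ J` by Kc 3, StMDQ (5)); it touches all parts by hypothesis.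
Second part: let `x ∈ φ k`, `k ∈ J`, `ρ x ≠ r`.  If there is no `j ∈ J` with `ρ = r` on `φ j` then `Z = Zz A ρ`.  Otherwise `j ≠ k`; let `K` be the component of `k` in `Γ` on `J \ {j}` (StCMP (1) for the graph `Γ`), `Z = ⋃ l ∈ K, φ l`, connected in `G`, avoids `{z | ρ z = r} = φ j`.  `{j}ᶜ` is connected in `Γ` (Kc 3), `K ⊆ {j}ᶜ`, `K ≠ {j}ᶜ` (`I` is not empty), so there is an edge from `l ∈ K`
to `m ≠ j`, `m ∉ K`, so `m ∉ J`, `φ m ⊆ {z | ρ z ∈ T}`, and `φ l` touches `φ m` in `G` (StMDQ (6)). -/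
def StAPU : Prop := ∀ (V ι : Type) [Finite V] [Finite ι] (G : SimpleGraph V) (A T : Set V) (Γ : SimpleGraph ι) (φ : ι → Set V) (ρ : V → V),
  Disjoint A T → T.ncard = 2 → Mdl G (cl T) A T Γ φ ρ → (∀ t ∈ T, Tch G (Zz A ρ) {z | ρ z = t}) → Uu G A T ρ

/-- APB.  All neighbours of `s` in `A` are in the part of `t`: split off a piece.  Proof.  `T = S \ {s} = {t, t'}`.  `P = {z | ρ z = t}`, connected, `P ⊆ A ∪ {t}`, `t ∈ P`.  Let `x₀ ∈ A` be adjacent to `s`, `M` the component of `x₀` in `P \ {t}`; `M ⊆ A`, it touches `t`, and `P \ M` is connected (StCMP (7)).  `ρ' z = x₀` on `M`, `ρ' z = ρ z` otherwise.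
`Rtr`: for `z ∉ M` also `ρ z ∉ M` (if `ρ z ∈ M ⊆ P` then `ρ z = ρ (ρ z) = t ∉ M`).  The fibres are `M`, `P \ M` and the other old ones.  `Rr A ρ' = Rr A ρ ∪ {x₀}`, `Zz A ρ' = Zz A ρ ∪ M`, `{z | ρ' z ∈ T} = {z | ρ z ∈ T} \ M`.
(a) StCMP (6) for `M`, `a = t`, `b = s`: an edge from `M` to `z ∉ M`, `z ≠ t, s`; `z ∈ A ∪ S`, `z ∉ P`, so `z ∈ Zz A ρ` or `ρ z = t'`.
`Uu`, first part: `x ∈ M`, for `t`: `Z = M`; for `t'`: `Z = M` or `Z = M ∪ Z₁`, `Z₁` for the `z ∈ Zz A ρ` of (a).  `x ∈ Zz A ρ`, for `t'`: the old `Z`; for `t`: the old `Z` touches `P`; if it does not touch `P \ M` then it touches `M` and `Z ∪ M` touches `t`.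
Second part: `x ∈ M` (`r ≠ x₀`): `Z = M` touches `t`.  `x ∈ Zz A ρ`, `r = x₀`: the old `Z` of the first part for `t'` (it does not meet `M`).  `x ∈ Zz A ρ`, `r ≠ x₀`: the old `Z` of the second part; if it does not touch `{z | ρ' z ∈ T}` then it touches `M`, and `Z ∪ M` touches `t` (`M` is in the fibre of `x₀ ≠ r`). -/
def StAPB : Prop := ∀ (V : Type) [Finite V] (G : SimpleGraph V) (S A : Set V) (s t : V) (ρ : V → V), Kc 3 G Set.univ → S.ncard = 3 →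
  Cmp G S A → s ∈ S → t ∈ S → t ≠ s → Rtr G A (S \ {s}) ρ → Uu G A (S \ {s}) ρ →
  (∀ x ∈ A, G.Adj s x → ρ x = t) →
  ∃ ρ', Rtr G A (S \ {s}) ρ' ∧ Uu G A (S \ {s}) ρ' ∧ (∀ x y, ρ' x = ρ' y → ρ x = ρ y) ∧ (Rr A ρ').ncard ≤ (Rr A ρ).ncard + 1 ∧
    ∃ x ∈ Zz A ρ', G.Adj s x

/-- APC.  Last splitting.  Proof.  `T = S \ {s}`, `N = {x ∈ A | G.Adj s x}`.
CASE 1: there is no `r₀ ∈ A` with `ρ = r₀` on `N`.  `ρ' = ρ`.  First links (StQUO (6)): let `t ∈ T`, `t'` the other element; take `x ∈ N` with `ρ x ≠ t'`: if `ρ x = t` then `Tch G {s} {z | ρ z = t}`, otherwise `x ∈ Zz A ρ` and the first part of `Uu` gives `Z`.  Second links (StQUO (7)): let `r` be given, take `x ∈ N` with `ρ x ≠ r` (it exists also if `r ∉ A`: hypothesis if `r ∈ T`); if `ρ x = t ∈ T`: `Tch`; otherwise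
the second part of `Uu`.
CASE 2: `ρ = r₀ ∈ A` on `N`.  `X = {z | ρ z = r₀} ⊆ A`, connected, `N ⊆ X`.  `E = {x ∈ X | x has a neighbour in (A ∪ T) \ X}`.  StMEN for `G`, `Φ = X`, `U = N`, `E`: let `v` be given, `n ∈ N`, `n ≠ v`, `M` the component of `n` in `X \ {v}`; StCMP (6) for `M`, `a = v`, `b = s` gives an edge from `x ∈ M` to `z ∉ M`, `z ≠ v, s`, `z ∈ A ∪ T`, and `z ∉ X` (else `z ∈ M`), so `x ∈ E`.
So `X = X₁ ∪ X₂`; `x₁ ∈ X₁ ∩ N`, `x₂ ∈ X₂ ∩ N`; `ρ' = x₁` on `X₁`, `x₂` on `X₂`, `ρ' = ρ` otherwise.  `Rr A ρ' = (Rr A ρ \ {r₀}) ∪ {x₁, x₂}`, `Zz A ρ' = Zz A ρ`, `{z | ρ' z = t} = {z | ρ z = t}` for `t ∈ T`.  First links: `x₁ ∈ N ∩ Zz A ρ`, first part of `Uu`, StQUO (6).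
Second links: let `r` be given.  If `r ≠ x₁, x₂` and `r ≠ r₀`: second part of `Uu` for `x₁`, `r`.  If `r ≠ x₁, x₂`, `r = r₀`: `{z | ρ' z = r₀}` does not meet `Zz A ρ`, the `Z` of the first links works.  If `r = x₁`: `X₂` contains an element with a neighbour `y ∈ (A ∪ T) \ X`: if `ρ y ∈ T` then `Z = X₂`; otherwise `y ∈ Zz A ρ`, `ρ y ≠ r₀`, the second part of `Uu` for `y`, `r₀` gives `Z₁`, and `Z = X₂ ∪ Z₁`
(contains `x₂ ∈ N`, avoids `X₁`).  Same for `r = x₂`. -/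
def StAPC : Prop := ∀ (V : Type) [Finite V] (G : SimpleGraph V) (S A : Set V) (s : V) (ρ : V → V), Kc 3 G Set.univ → S.ncard = 3 →
  Cmp G S A → s ∈ S → Rtr G A (S \ {s}) ρ → Uu G A (S \ {s}) ρ → 2 ≤ {x | x ∈ A ∧ G.Adj s x}.ncard →
  (∀ t ∈ S \ {s}, ∃ x ∈ A, G.Adj s x ∧ ρ x ≠ t) →
  ∃ ρ', Rtr G A (S \ {s}) ρ' ∧ (∀ x y, ρ' x = ρ' y → ρ x = ρ y) ∧ (Rr A ρ').ncard ≤ (Rr A ρ).ncard + 1 ∧
    (∀ t ∈ S \ {s}, Lk (quo G Set.univ ρ') (Rr A ρ') s t) ∧ (∀ r, ∃ t ∈ S \ {s}, Lk (quo G Set.univ ρ') (Rr A ρ' \ {r}) s t)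

/-- LKB.  Proof.  `S = {s, t, t'}`.  Every component `K` of `B \ {v}` (`Cmp G (insert v S) K`, `K ⊆ B`) touches at least two elements of `S` (StCMP (5)).  If one touches `t` and `t'`: `P = K`.  Otherwise all touch `s` and exactly one of `t`, `t'`.  `t` has a neighbour in `B \ {v}`, in a component `K`, and `t'` in a component `K'`; `P = K ∪ {s} ∪ K'`. -/
def StLKB : Prop := ∀ (V : Type) [Finite V] (G : SimpleGraph V) (S B : Set V) (s v : V), Kc 3 G Set.univ → S.ncard = 3 → Cmp G S B → s ∈ S →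
  v ∈ B → (∀ t ∈ S, t ≠ s → 2 ≤ {x | x ∈ B ∧ G.Adj t x}.ncard) →
  ∃ P ⊆ (B \ {v}) ∪ {s}, Con G P ∧ ∀ t ∈ S, t ≠ s → Tch G {t} P

/-- ACH.  Proof.  `T = S \ {s} = {t, t'}`, `H = quo G univ ρ`, `K = rst H {v}ᶜ`, suppose `K` planar.  `ρ` is the identity outside `A`, so `H` contains `rst G Aᶜ` (StQUO (3)), and connected sets outside `A` stay connected (StQUO (4)).
(1) `v = s`: `rst H (Rr A ρ ∪ T) ≤ K`, and `t`, `t'` are linked in `K` by `P = B` (StCMP (4)); StLNK (with `H` instead of `G`): contradiction.  (2) `v = t`: `rst G (B ∪ {s, t'}) ≤ K`, and `s`, `t'` are linked inside `Rr A ρ` (hypothesis for `t'`; the set `P ⊆ Rr A ρ` does not contain `v`); StLNK contradicts `Stg G S B t`.  Same for `t'`.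
(3) `v ∉ B ∪ S`: the last hypothesis for `r = v` gives `t` (or `t'`) and a link of `s` and `t` inside `Rr A ρ \ {v}`; `rst G (B ∪ {s, t}) ≤ K`; StLNK contradicts `Stg G S B t'`.  (4) `v ∈ B`: StLKB: `P ⊆ (B \ {v}) ∪ {s}` links `t`, `t'` in `K`, `rst H (Rr A ρ ∪ T) ≤ K`; StLNK: contradiction. -/
def StACH : Prop := ∀ (V : Type) [Finite V] (G : SimpleGraph V) (S A B : Set V) (s : V) (ρ : V → V), Kc 3 G Set.univ → S.ncard = 3 →
  Cmp G S A → Cmp G S B → A ≠ B → s ∈ S → (∀ t ∈ S, t ≠ s → 2 ≤ {x | x ∈ B ∧ G.Adj t x}.ncard) → (∀ t ∈ S, t ≠ s → Stg G S B t) →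
  Rtr G A (S \ {s}) ρ → ¬ Planar (rst (quo G Set.univ ρ) (Rr A ρ ∪ S \ {s}) ⊔ cl (S \ {s})) →
  (∀ t ∈ S \ {s}, Lk (quo G Set.univ ρ) (Rr A ρ) s t) → (∀ r, ∃ t ∈ S \ {s}, Lk (quo G Set.univ ρ) (Rr A ρ \ {r}) s t) →
  ∀ v, ¬ Planar (rst (quo G Set.univ ρ) {v}ᶜ)

/-- SMA.  Proof.  StAPM, StAPU, StMDQ: `ρ₀` with `Rtr`, `Uu`, `|Rr A ρ₀| ≤ 5`, nonplanar quotient.  If for some `t ∈ S \ {s}` all neighbours of `s` in `A` are in the part of `t`: StAPB gives `ρ₁`, `|Rr| ≤ 6`, and some neighbour of `s` in `Zz A ρ₁`, so the hypothesis of StAPC holds; otherwise `ρ₁ = ρ₀`.  StAPC: `ρ`, `|Rr A ρ| ≤ 7`; StREF (for the composition): the quotient by `ρ` is not planar.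
StACH: `rst (quo G univ ρ) {v}ᶜ` is not planar for all `v`.  If `|A| ≥ 8` then StQUO (5) gives an edge with `ρ x = ρ y`, and `Mnm` (`G₀ = G`, `D = univ`) a contradiction. -/
def StSMA : Prop := ∀ (V : Type) [Finite V] (G : SimpleGraph V) (S A B : Set V) (s : V), Mnm G → Kc 3 G Set.univ → S.ncard = 3 →
  Cmp G S A → Cmp G S B → A ≠ B → s ∈ S → 2 ≤ {x | x ∈ A ∧ G.Adj s x}.ncard →
  (∀ t ∈ S, t ≠ s → 2 ≤ {x | x ∈ B ∧ G.Adj t x}.ncard) → Stg G S A s → (∀ t ∈ S, t ≠ s → Stg G S B t) → A.ncard ≤ 7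

/-! ### case beta: `B` is enough for all `s ∈ S` -/

/-- a component of `B \ {v}` attached to all of `S` -/
def Pa {V : Type} (G : SimpleGraph V) (S B : Set V) (v : V) : Prop := ∃ K, Cmp G (insert v S) K ∧ K ⊆ B ∧ ∀ s ∈ S, Tch G {s} K

/-- for every pair of elements of `S` a component of `B \ {v}` attached to exactly these elements of `S` -/
def Pb {V : Type} (G : SimpleGraph V) (S B : Set V) (v : V) : Prop := ∀ a ∈ S, ∀ b ∈ S, a ≠ b →
  ∃ K, Cmp G (insert v S) K ∧ K ⊆ B ∧ ∀ s ∈ S, (Tch G {s} K ↔ (s = a ∨ s = b))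

/-- all components of `B \ {v}` are attached to `c` and to exactly one other element of `S`, and every element of `S` occurs -/
def Pc {V : Type} (G : SimpleGraph V) (S B : Set V) (v c : V) : Prop :=
  (∀ K, Cmp G (insert v S) K → K ⊆ B → Tch G {c} K ∧ ∃ t ∈ S, ¬ Tch G {t} K) ∧
  (∀ t ∈ S, t ≠ c → ∃ K, Cmp G (insert v S) K ∧ K ⊆ B ∧ Tch G {t} K)

/-- PRC.  Proof.  The components of `B \ {v}` are the `K` with `Cmp G (insert v S) K`, `K ⊆ B`; they cover `B \ {v}` and each touches at least two elements of `S` (StCMP (1), (3), (5)).  Every `t ∈ S` has a neighbour in `B \ {v}`, so it touches one of them.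
(1) Suppose not `Pa`; then each `K` touches exactly two elements.  If all three pairs occur: `Pb`.  Otherwise a pair `{a, b}` does not occur, `S = {c, a, b}`: every `K` touches `c` and not both of `a`, `b`: `Pc` for `c`.
(2) Suppose `c ≠ c'`, `S = {c, c', u}`.  `v ≠ v'`: otherwise every `K` touches `c` and `c'`, so not `u`, contradiction.  Let `K₀` be the component of `B \ {v}` containing `v'`.  `B \ K₀` is connected (StCMP (7)) and does not contain `v'`, so it is contained in a component `L₀` of `B \ {v'}`.  Let `K₁` be a component of `B \ {v}` touching `u` (and `c`, not `c'`), `K₂` one touching `c'` (and `c`, not `u`).  `K₁ ≠ K₂`.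
If `K₀ ≠ K₁, K₂` then `K₁, K₂ ⊆ L₀`, so `L₀` touches `c, u, c'`, contradiction to `Pc` for `v'`.  If `K₀ = K₂` then `K₁ ⊆ L₀` and `L₀` touches `u`, `c`, and `c'` (`Pc` for `v'`), contradiction.  If `K₀ = K₁` then `K₂ ⊆ L₀`, `L₀` touches `c`, `c'`, so not `u`; by `Pc` for `v'` there is a component `L₁` of `B \ {v'}` touching `u`; `L₁ ≠ L₀`, so `L₁ ⊆ K₀`; `L₁` touches `c'`, so `K₀ = K₁` touches `c'`,
contradiction. -/
def StPRC : Prop := ∀ (V : Type) [Finite V] (G : SimpleGraph V) (S B : Set V), Kc 3 G Set.univ → S.ncard = 3 → Cmp G S B →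
  (∀ t ∈ S, 2 ≤ {x | x ∈ B ∧ G.Adj t x}.ncard) →
  (∀ v ∈ B, Pa G S B v ∨ Pb G S B v ∨ ∃ c ∈ S, Pc G S B v c) ∧
  (∀ v ∈ B, ∀ v' ∈ B, ∀ c ∈ S, ∀ c' ∈ S, Pc G S B v c → Pc G S B v' c' → c = c')

/-- AVL.  Proofs.  Let `H`, `X` be given, `X` disjoint from `B \ {v}`, `rst G ((B \ {v}) ∪ S) ≤ H`, `H` planar.  (1) `Pa`: StLNY (with `H` for both graphs `G`, `K` of it) for `P = K`.  (2) `Pb`, `S = {a, b, c}`: `K_ab`, `K_bc`, `K_ca` are different components, so disjoint.  NK.StPTR from `rst H (X ∪ S) ⊔ cl S` to `H` with `f a = {a} ∪ K_ab`, `f b = {b} ∪ K_bc`, `f c = {c} ∪ K_ca`, `f x = {x}` otherwise.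
(3) `Pc`, `S = {c, a, b}`: `K_a` touching `a` (and `c`), `K_b` touching `b` (and `c`), different because none touches all three; `f c = {c} ∪ K_a ∪ K_b`, `f x = {x}` otherwise.  (4) Monotonicity of `Planar` (NK.StKCA (6)).  (5) is clear. -/
def StAVL : Prop := ∀ (V : Type) [Finite V] (G : SimpleGraph V) (S B : Set V) (v : V), S.ncard = 3 → Cmp G S B → v ∈ B →
  (Pa G S B v → Avl G (B \ {v}) S (cl S)) ∧ (Pb G S B v → Avl G (B \ {v}) S (cl S)) ∧
  (∀ c ∈ S, Pc G S B v c → Avl G (B \ {v}) S (str c S)) ∧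
  (∀ (W : Set V) (D D' : SimpleGraph V), D ≤ D' → Avl G W S D' → Avl G W S D) ∧ (∀ c ∈ S, str c S ≤ cl S)

/-- PAT.  Proof.  `S = {c, a, b}`.  `W_a`: the union of the components `K` of `B \ {v}` touching `a`, `W_b` the same for `b`; every `K` touches `c` and exactly one of `a`, `b` (`Pc`, StCMP (5)); `W_a ∪ W_b = B \ {v}`, no edges between `W_a` and `W_b`.  Let `K' = add (rst G ((B \ {v}) ∪ S)) y S`, planar.
(1) StTWO for `H = rst G {v}ᶜ`, `p = c`, `q = a`, the family `{W_a, A ∪ W_b ∪ {b}}` (closed: `W_a` has neighbours only in `W_a ∪ {c, a}`; in particular not `b`).  If it gives `W_a`: `rst H (W_a ∪ {c, a}) ⊔ cl {c, a}` is not planar, but `rst G (W_a ∪ {c, a}) ≤ K'` and `c`, `a` are linked in `K'` by `{y}`: StLNK, contradiction.  So `H₁ = rst H (A ∪ W_b ∪ {b} ∪ {c, a}) ⊔ cl {c, a}` is not planar.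
(2) StTWO for `H₁`, `p = c`, `q = b`, the family `{W_b, A ∪ {a}}`.  If it gives `W_b`: the same contradiction (`rst H₁ (W_b ∪ {c, b}) = rst G (W_b ∪ {c, b})`).  So `rst H₁ (A ∪ {a} ∪ {c, b}) ⊔ cl {c, b}` is not planar; it is a subgraph of `rst G (A ∪ S) ⊔ str c S`. -/
def StPAT : Prop := ∀ (V : Type) [Finite V] (G : SimpleGraph V) (S A B : Set V) (c v y : V), Kc 3 G Set.univ → S.ncard = 3 →
  Cmp G S A → Cmp G S B → A ≠ B → (∀ x, x ∈ A ∨ x ∈ B ∨ x ∈ S) → v ∈ B → c ∈ S → Pc G S B v c → y ∈ A →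
  Planar (add (rst G ((B \ {v}) ∪ S)) y S) → ¬ Planar (rst G {v}ᶜ) → ¬ Planar (rst G (A ∪ S) ⊔ str c S)

/-- DPT.  Proof.  Call `v ∈ B` good if `Planar (add (rst G ((B \ {v}) ∪ S)) y S)`.  If there are a good `v₀` and `c ∈ S` with `Pc G S B v₀ c`: `D = str c S`, not planar by StPAT; for a good `v`: by StPRC (1) `Pa`, `Pb` (StAVL (1), (2), (4), (5)) or `Pc G S B v c'`, and then `c' = c` (StPRC (2)), StAVL (3).  Otherwise `D = cl S`, `Npl G S A`; a good `v` has `Pa` or `Pb`; StAVL. -/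
def StDPT : Prop := ∀ (V : Type) [Finite V] (G : SimpleGraph V) (S A B : Set V) (y : V), Kc 3 G Set.univ → S.ncard = 3 →
  Cmp G S A → Cmp G S B → A ≠ B → (∀ x, x ∈ A ∨ x ∈ B ∨ x ∈ S) → (∀ t ∈ S, 2 ≤ {x | x ∈ B ∧ G.Adj t x}.ncard) → Npl G S A →
  (∀ v, ¬ Planar (rst G {v}ᶜ)) → y ∈ A →
  ∃ D : SimpleGraph V, D ≤ cl S ∧ ¬ Planar (rst G (A ∪ S) ⊔ D) ∧
    ∀ v ∈ B, Planar (add (rst G ((B \ {v}) ∪ S)) y S) → Avl G (B \ {v}) S D

/-- BPM.  Proof.  `A ∪ S` is connected in `rst G (A ∪ S) ⊔ D` (StCMP (4)).  StSPM: `ι, Γ, φ`.  For every `i` with `φ i ∩ S ≠ ∅` StVOR (`U = A ∪ S`, `T = S`, `Φ = φ i`) gives parts; `P t` for `t ∈ S` is the part of `t` in the `φ i` containing `t` (`P t ⊆ φ i ⊆ A ∪ S`, `P t ∩ S = {t}`).  StMDE. -/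
def StBPM : Prop := ∀ (V : Type) [Finite V] (G D : SimpleGraph V) (S A : Set V), Kc 3 G Set.univ → S.ncard = 3 → Cmp G S A → D ≤ cl S →
  ¬ Planar (rst G (A ∪ S) ⊔ D) →
  ∃ (ι : Type) (_ : Finite ι) (Γ : SimpleGraph ι) (φ : ι → Set V) (ρ : V → V), Mdl G D A S Γ φ ρ

/-- BPT.  Every part touches `Zz A ρ`.  Proof.  Suppose `P = {z | ρ z = s}` does not touch `Zz A ρ`, which is the union of the `φ j` with `φ j ∩ S = ∅` (StMDQ (3)).  `s ∈ φ i`, `P ⊆ φ i`.  If `φ i ∩ S = {s}` then `φ i = P` (`root`, `inv`); at most two other `φ k` meet `S`, so `i` has a neighbour `j` in `Γ` with `φ j ∩ S = ∅` (StPTN (10)), `φ j` touches `φ i` in `G` (StMDQ (6)), contradiction.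
So let `s' ∈ φ i ∩ S`, `s' ≠ s`.  `ψ i = φ i \ P`, `ψ k = φ k` for `k ≠ i` is a model of `Γ` in `rst G (A ∪ S \ {s}) ⊔ cl (S \ {s})`, so `Stg G S A s`, contradiction: `ψ i` is the union of the one or two fibres of the elements of `φ i ∩ S \ {s}`, connected in `G`, joined by an edge of `cl`; `φ k`, `k ≠ i`, does not contain `s`.  Touching: between `ψ k`, `ψ l` with `k, l ≠ i` the edge does not contain `s`.  Between `φ i` and
`φ k`: if `φ k ∩ S = ∅` then `φ k` touches `φ i` in `G`, not in `P`; otherwise `φ k` contains an element of `S \ {s}`, adjacent to `s'` in `cl (S \ {s})`. -/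
def StBPT : Prop := ∀ (V ι : Type) [Finite V] [Finite ι] (G D : SimpleGraph V) (S A : Set V) (Γ : SimpleGraph ι) (φ : ι → Set V) (ρ : V → V),
  S.ncard = 3 → Disjoint A S → D ≤ cl S → Mdl G D A S Γ φ ρ → (∀ s ∈ S, ¬ Stg G S A s) → ∀ s ∈ S, Tch G {z | ρ z = s} (Zz A ρ)

/-- BPR.  Links.  Proof.  `J = {j | φ j ∩ S = ∅}`, `I` its complement, one, two or three elements; `J` is not empty (Kc 3).
(1) If `|I| ≤ 2`: `Z = Zz A ρ`, connected (`Con Γ J` by Kc 3; StMDQ (3), (5)), touches all parts (hypothesis).  If `|I| = 3`: let `K` be a component of `Γ` on `J` (StCMP (1)); it touches every `i ∈ I` (StCMP (4) for `Γ`); every `φ i`, `i ∈ I`, contains exactly one `s ∈ S` and is `{z | ρ z = s}`; `Z = ⋃ k ∈ K, φ k`.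
(2) Let `r` be given.  If `ρ = r` on no `φ j`, `j ∈ J`, then the `Z` of (1) avoids `{z | ρ z = r}`; any two elements of `S`.  Let `ρ = r` on `φ j`, `j ∈ J`; `{z | ρ z = r} = φ j`.
`|I| = 3`: `J \ {j}` is not empty (StPTN (9)); `K` a component of `Γ` on it; `K` touches two elements of `I` (StCMP (5) for `Γ`, `S = I`, `v = j`, twice); `Z = ⋃ k ∈ K, φ k`.
`|I| = 2`, `I = {i, i'}`: `J \ {j}` is not empty; `K` a component of it; `{j, i'}ᶜ` is connected in `Γ` and contains `K` and `i ∉ K`, so `K` touches `i`; in the same way `i'`.  `Z = ⋃ k ∈ K, φ k` touches an element of `φ i`, which is in the part of some `a ∈ φ i ∩ S`, and an element of `φ i'`, in the part of some `b ∈ φ i' ∩ S`; `a ≠ b`.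
`|I| = 1`, `I = {i}`: `Z = ⋃ k ∈ J \ {j}, φ k` is connected (`{i, j}ᶜ` is connected in `Γ`).  It touches `φ i` (`i` has a neighbour other than `j`), so some part `P₁ = {z | ρ z = s₁}`.  If it touches another part we are done.  Otherwise let `S = {s₁, s₂, s₃}`, `P₂` the part of `s₂`; it touches `Zz A ρ`, not `Z`, so it touches `φ j`.  `ψ i = P₁ ∪ P₂`, `ψ k = φ k` for `k ≠ i` is a model of `Γ` in
`rst G (A ∪ S \ {s₃}) ⊔ cl (S \ {s₃})`, contradiction to the hypothesis: `ψ i` is connected with the edge `s₁ s₂`; if `Γ.Adj i k`, `k ≠ j`, then `φ k` touches `φ i` in `G` (StMDQ (6)), necessarily in `P₁`; `ψ i` touches `φ j` by `P₂`; between `φ k`, `φ l`, `k, l ≠ i`: edges of `G` in `A`. -/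
def StBPR : Prop := ∀ (V ι : Type) [Finite V] [Finite ι] (G D : SimpleGraph V) (S A : Set V) (Γ : SimpleGraph ι) (φ : ι → Set V) (ρ : V → V),
  S.ncard = 3 → Disjoint A S → D ≤ cl S → Mdl G D A S Γ φ ρ → (∀ s ∈ S, ¬ Stg G S A s) → (∀ s ∈ S, Tch G {z | ρ z = s} (Zz A ρ)) →
  (∃ Z ⊆ Zz A ρ, Con G Z ∧ ∀ s ∈ S, Tch G {z | ρ z = s} Z) ∧
  (∀ r, ∃ a ∈ S, ∃ b ∈ S, a ≠ b ∧ ∃ Z ⊆ Zz A ρ \ {z | ρ z = r}, Con G Z ∧ Tch G {z | ρ z = a} Z ∧ Tch G {z | ρ z = b} Z)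

/-- BCH.  Proof.  `H = quo G univ ρ`, `K = rst H {v}ᶜ`, suppose `K` planar.  `H` contains `rst G Aᶜ`.  (1) `v ∈ S`: `S \ {v} = {a, b}` are linked in `K` by the set `P ⊆ Rr A ρ` attached to all of `S`; StLNK contradicts `Stg G S B v`.  (2) `v ∉ B ∪ S`: `a ≠ b` in `S` linked in `Rr A ρ \ {v}`; `s` the third element, `S \ {s} = {a, b}`; StLNK contradicts `Stg G S B s`.
(3) `v ∈ B`: let `P ⊆ Rr A ρ` be the set attached to all of `S`.  `Planar (add (rst G ((B \ {v}) ∪ S)) y S)` by NK.StPTR with `f y = P`, `f x = {x}` for `x ≠ y` (`y ∈ A`), into `K`.  So `Avl G (B \ {v}) S D`; apply it to `K` and `X = Rr A ρ`: `rst K (Rr A ρ ∪ S) ⊔ D` is planar; this is `rst H (Rr A ρ ∪ S) ⊔ D`, contradiction. -/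
def StBCH : Prop := ∀ (V : Type) [Finite V] (G D : SimpleGraph V) (S A B : Set V) (y : V) (ρ : V → V), Kc 3 G Set.univ → S.ncard = 3 →
  Cmp G S A → Cmp G S B → A ≠ B → (∀ s ∈ S, Stg G S B s) → Rtr G A S ρ → y ∈ A →
  ¬ Planar (rst (quo G Set.univ ρ) (Rr A ρ ∪ S) ⊔ D) →
  (∃ P ⊆ Rr A ρ, Con (quo G Set.univ ρ) P ∧ ∀ t ∈ S, Tch (quo G Set.univ ρ) {t} P) →
  (∀ r, ∃ a ∈ S, ∃ b ∈ S, a ≠ b ∧ Lk (quo G Set.univ ρ) (Rr A ρ \ {r}) a b) →
  (∀ v ∈ B, Planar (add (rst G ((B \ {v}) ∪ S)) y S) → Avl G (B \ {v}) S D) →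
  ∀ v, ¬ Planar (rst (quo G Set.univ ρ) {v}ᶜ)

/-- SMB.  Proof.  `y ∈ A`; StDPT: `D`; StBPM: `ι, Γ, φ, ρ`; StBPT, StBPR, StQUO (8), (9); StMDQ: `|Rr A ρ| ≤ 5`, nonplanar quotient; StBCH.  If `|A| ≥ 6` then StQUO (5) and `Mnm` give a contradiction. -/
def StSMB : Prop := ∀ (V : Type) [Finite V] (G : SimpleGraph V) (S A B : Set V), Mnm G → Kc 3 G Set.univ → S.ncard = 3 →
  Cmp G S A → Cmp G S B → A ≠ B → (∀ x, x ∈ A ∨ x ∈ B ∨ x ∈ S) → (∀ t ∈ S, 2 ≤ {x | x ∈ B ∧ G.Adj t x}.ncard) → Npl G S A →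
  (∀ s ∈ S, ¬ Stg G S A s) → (∀ s ∈ S, Stg G S B s) → A.ncard ≤ 5

/-- FIN.  The third part.  Proof.  There are at least two components (`Sᶜ` is not empty, since `|V| ≥ 4`, and not connected; StCMP).  If there were three then by StTRI one of them, `C`, is a single vertex; but an element of `S` has two neighbours in it, contradiction.  So exactly two, `A ≠ B`, every vertex is in `A`, `B` or `S` (StCMP (1)), both have at least two elements, so `Npl G S A`, `Npl G S B` (StPLC).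
`S ⊆ I(A) ∪ I(B)` where `I(C) = {s ∈ S | Stg G S C s}` (StSTG).  If `I(A) = ∅`: StSMB.  If `I(B) = ∅`: StSMB with `A`, `B` exchanged.  Otherwise, if `I(B)` has at least two elements: there is `s ∈ I(A)` with `S \ {s} ⊆ I(B)` (if `I(B) = S` any `s ∈ I(A)`; otherwise the `s ∉ I(B)`): StSMA.  If `I(B) = {s}`: `S \ {s} ⊆ I(A)`, StSMA with `A`, `B` exchanged. -/
def StFIN : Prop := ∀ (V : Type) [Finite V] (G : SimpleGraph V) (S : Set V), Mnm G → Kc 3 G Set.univ → S.ncard = 3 → ¬ Con G Sᶜ →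
  (∀ C, Cmp G S C → ∀ s ∈ S, 2 ≤ {x | x ∈ C ∧ G.Adj s x}.ncard) →
  {C | Cmp G S C}.ncard = 2 ∧ ∃ C, Cmp G S C ∧ C.ncard ≤ 7

end Pool.Agent.Helper12.TS
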